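import Mathlib

set_option autoImplicit false

namespace Pool.Agent.TH191.CP

open Polynomial

/-- `C_n^2 - 4 = (X^2 - 4) S_{n-1}^2` -/
theorem C_sq (R : Type) [CommRing R] (n : ℤ) :
    (Chebyshev.C R n) ^ 2 - 4 = (X ^ 2 - 4) * (Chebyshev.S R (n - 1)) ^ 2 := by
  have h1 := Chebyshev.S_sq_add_S_sq R (n - 1)
  have h2 := Chebyshev.C_eq_S_sub_X_mul_S R n
  rw [sub_add_cancel] at h1
  rw [h2]
  linear_combination 4 * h1

theorem C_sq_eval {R : Type} [CommRing R] (n : ℤ) (x : R) :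
    ((Chebyshev.C R n).eval x) ^ 2 - 4 = (x ^ 2 - 4) * ((Chebyshev.S R (n - 1)).eval x) ^ 2 := by
  have h := congrArg (Polynomial.eval x) (C_sq R n)
  have e4 : (4 : R[X]) = Polynomial.C 4 := (map_ofNat Polynomial.C 4).symm
  simpa only [e4, eval_sub, eval_pow, eval_mul, eval_X, eval_C] using h

/-- the derivative of `C_n` at `c` is `n S_{n-1}(c)` (characteristic zero) -/
theorem deriv_C {K : Type} [Field K] [CharZero K] (n : ℤ) (c : K) :
    (derivative (Chebyshev.C K n)).eval c = n * (Chebyshev.S K (n - 1)).eval c := by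
  have h1 := Chebyshev.C_comp_two_mul_X K n
  have h2 := Chebyshev.T_derivative_eq_U (R := K) n
  have h3 := Chebyshev.S_comp_two_mul_X K (n - 1)
  have h4 := congrArg (fun q => (derivative q).eval (c / 2)) h1
  have h5 := congrArg (fun q : K[X] => q.eval (c / 2)) h3
  have h6 := congrArg (fun q : K[X] => q.eval (c / 2)) h2
  have e2 : (2 : K[X]) = Polynomial.C 2 := (map_ofNat Polynomial.C 2).symm
  have e3 : (2 : K) * (c / 2) = c := by field_simp
  simp only [derivative_comp, e2, derivative_mul, derivative_C, derivative_X, eval_mul, eval_comp,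
    eval_add, eval_C, eval_X, zero_mul, zero_add, mul_one, e3, eval_intCast] at h4 h5 h6
  rw [h6, ← h5] at h4
  have h7 : (2 : K) * (eval c (derivative (Chebyshev.C K n))) =
      2 * ((n : K) * eval c (Chebyshev.S K (n - 1))) := by
    linear_combination h4
  exact mul_left_cancel₀ two_ne_zero h7

/-- at a critical point of `C_d` the value is `±2` -/
theorem crit {K : Type} [Field K] [CharZero K] {d : ℕ} (hd : 1 ≤ d) {c : K}
    (hc : (derivative (Chebyshev.C K d)).eval c = 0) : ((Chebyshev.C K d).eval c) ^ 2 = 4 := by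
  rw [deriv_C] at hc
  have hd0 : ((d : ℤ) : K) ≠ 0 := by
    have : (d : K) ≠ 0 := by exact_mod_cast (by omega : d ≠ 0)
    simpa using this
  have h1 : (Chebyshev.S K ((d : ℤ) - 1)).eval c = 0 := by
    rcases mul_eq_zero.1 hc with h | h
    · exact absurd h hd0
    · exact h
  have h2 := C_sq_eval (d : ℤ) c
  rw [h1] at h2
  linear_combination h2

/-- iterates of `C_d` -/
theorem iter {R : Type} [CommRing R] (d n : ℕ) (x : R) :
    (fun y => (Chebyshev.C R d).eval y)^[n] x = (Chebyshev.C R ((d ^ n : ℕ) : ℤ)).eval x := by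
  induction n with
  | zero => simp
  | succ n ih =>
    rw [Function.iterate_succ_apply', ih, pow_succ', Nat.cast_mul, Chebyshev.C_mul, eval_comp]

/-- values at `l + l⁻¹` -/
theorem C_val {F : Type} [Field F] {l : F} (hl : l ≠ 0) (n : ℕ) :
    (Chebyshev.C F n).eval (l + l⁻¹) = l ^ n + (l⁻¹) ^ n ∧
    (Chebyshev.C F ((n : ℤ) + 1)).eval (l + l⁻¹) = l ^ (n + 1) + (l⁻¹) ^ (n + 1) := by
  induction n with
  | zero =>
    constructor
    · simp; norm_num
    · simp
  | succ n ih =>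
    refine ⟨by exact_mod_cast ih.2, ?_⟩
    have e : (((n + 1 : ℕ) : ℤ) + 1) = (n : ℤ) + 2 := by push_cast; ring
    rw [e, Chebyshev.C_add_two, eval_sub, eval_mul, eval_X, ih.1, ih.2]
    have h1 : l * l⁻¹ = 1 := mul_inv_cancel₀ hl
    have h2 : l⁻¹ * l = 1 := inv_mul_cancel₀ hl
    rw [show n + 1 + 1 = n + 2 by ring, pow_succ l (n+1), pow_succ l⁻¹ (n+1), pow_succ l n, pow_succ l⁻¹ n]
    linear_combination (l ^ n + l⁻¹ ^ n) * h1

theorem S_val {F : Type} [Field F] {l : F} (hl : l ≠ 0) (n : ℕ) :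
    (Chebyshev.S F ((n : ℤ) - 1)).eval (l + l⁻¹) * (l - l⁻¹) = l ^ n - (l⁻¹) ^ n ∧
    (Chebyshev.S F (n : ℤ)).eval (l + l⁻¹) * (l - l⁻¹) = l ^ (n + 1) - (l⁻¹) ^ (n + 1) := by
  induction n with
  | zero => simp
  | succ n ih =>
    have e0 : (((n + 1 : ℕ) : ℤ) - 1) = (n : ℤ) := by push_cast; ring
    refine ⟨by rw [e0]; exact ih.2, ?_⟩
    have e : (((n + 1 : ℕ) : ℤ)) = ((n : ℤ) - 1) + 2 := by push_cast; ring
    have e' : ((n : ℤ) - 1 + 1) = n := by ring
    rw [e, Chebyshev.S_add_two, eval_sub, eval_mul, eval_X, e']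
    have h1 : l * l⁻¹ = 1 := mul_inv_cancel₀ hl
    have i1 := ih.1
    have i2 := ih.2
    rw [pow_succ l n, pow_succ l⁻¹ n] at i2
    rw [show n + 1 + 1 = n + 2 by ring, pow_succ l (n+1), pow_succ l⁻¹ (n+1), pow_succ l n, pow_succ l⁻¹ n]
    linear_combination (l + l⁻¹) * i2 - i1 + (l ^ n - l⁻¹ ^ n) * h1

/-- the integers `v^{m-1} S_{m-1}(u/v)` -/
def w (u v : ℤ) : ℕ → ℤ
  | 0 => 0
  | 1 => 1
  | (m + 2) => u * w u v (m + 1) - v ^ 2 * w u v m

theorem w_val {R : Type} [CommRing R] (u v : ℤ) (β : R) (hβ : (v : R) * β = u) (m : ℕ) :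
    (v : R) * (w u v m : R) = (v : R) ^ m * (Chebyshev.S R ((m : ℤ) - 1)).eval β ∧
    (v : R) * (w u v (m + 1) : R) = (v : R) ^ (m + 1) * (Chebyshev.S R (m : ℤ)).eval β := by
  induction m with
  | zero => simp [w]
  | succ m ih =>
    have e0 : (((m + 1 : ℕ) : ℤ) - 1) = (m : ℤ) := by push_cast; ring
    refine ⟨by rw [e0]; exact ih.2, ?_⟩
    have e : (((m + 1 : ℕ) : ℤ)) = ((m : ℤ) - 1) + 2 := by push_cast; ring
    have e' : ((m : ℤ) - 1 + 1) = m := by ring
    rw [e, Chebyshev.S_add_two, eval_sub, eval_mul, eval_X, e']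
    simp only [w]
    push_cast
    rw [← hβ]
    linear_combination (v : R) * β * ih.2 - (v : R) ^ 2 * ih.1

theorem w_bound (u v : ℤ) (m : ℕ) : (w u v m).natAbs ≤ (u.natAbs + v.natAbs ^ 2 + 1) ^ m ∧
    (w u v (m + 1)).natAbs ≤ (u.natAbs + v.natAbs ^ 2 + 1) ^ (m + 1) := by
  set B := u.natAbs + v.natAbs ^ 2 + 1 with hB
  have hB1 : 1 ≤ B := by omega
  induction m with
  | zero => simp [w]; exact hB1
  | succ m ih =>
    refine ⟨ih.2, ?_⟩
    have h1 : (w u v (m + 1 + 1)).natAbs ≤ u.natAbs * (w u v (m + 1)).natAbs +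
        v.natAbs ^ 2 * (w u v m).natAbs := by
      have : w u v (m + 1 + 1) = u * w u v (m + 1) - v ^ 2 * w u v m := rfl
      rw [this]
      refine (Int.natAbs_sub_le _ _).trans ?_
      rw [Int.natAbs_mul, Int.natAbs_mul, Int.natAbs_pow]
    have h2 : B ^ m ≤ B ^ (m + 1) := Nat.pow_le_pow_right hB1 (by omega)
    calc (w u v (m + 1 + 1)).natAbs ≤ u.natAbs * B ^ (m + 1) + v.natAbs ^ 2 * B ^ (m + 1) := by
          refine h1.trans (Nat.add_le_add (Nat.mul_le_mul_left _ ih.2)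
            (Nat.mul_le_mul_left _ (ih.1.trans h2)))
      _ = (u.natAbs + v.natAbs ^ 2) * B ^ (m + 1) := by ring
      _ ≤ B * B ^ (m + 1) := Nat.mul_le_mul_right _ (by omega)
      _ = B ^ (m + 1 + 1) := by ring

theorem w_mod (u v : ℤ) (m : ℕ) : v ∣ w u v (m + 1) - u ^ m := by
  induction m with
  | zero => simp [w]
  | succ m ih =>
    have : w u v (m + 1 + 1) = u * w u v (m + 1) - v ^ 2 * w u v m := rfl
    rw [this]
    obtain ⟨t, ht⟩ := ih
    exact ⟨u * t - v * w u v m, by linear_combination u * ht⟩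

theorem w_grow (u : ℤ) (hu : 3 ≤ |u|) (m : ℕ) : |w u 1 m| < |w u 1 (m + 1)| := by
  induction m with
  | zero => simp [w]
  | succ m ih =>
    have : w u 1 (m + 1 + 1) = u * w u 1 (m + 1) - 1 ^ 2 * w u 1 m := rfl
    rw [this]
    have h1 : |u * w u 1 (m + 1)| - |w u 1 m| ≤ |u * w u 1 (m + 1) - 1 ^ 2 * w u 1 m| := by
      have := abs_sub_abs_le_abs_sub (u * w u 1 (m + 1)) (w u 1 m)
      simpa using this
    rw [abs_mul] at h1
    have h2 : 3 * |w u 1 (m + 1)| ≤ |u| * |w u 1 (m + 1)| :=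
      mul_le_mul_of_nonneg_right hu (abs_nonneg _)
    have h3 : 0 ≤ |w u 1 m| := abs_nonneg _
    linarith

theorem w_ne (u v : ℤ) (huv : IsCoprime u v) (h : 2 ≤ v ∨ (v = 1 ∧ 3 ≤ |u|)) (m : ℕ) (hm : 1 ≤ m) :
    w u v m ≠ 0 := by
  obtain ⟨m, rfl⟩ : ∃ k, m = k + 1 := ⟨m - 1, by omega⟩
  rcases h with h | ⟨rfl, h⟩
  · intro h0
    have h1 := w_mod u v m
    rw [h0, zero_sub, dvd_neg] at h1
    have h2 : IsCoprime v (u ^ m) := (huv.symm).pow_right
    have h3 : IsUnit v := h2.isUnit_of_dvd' dvd_rfl h1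
    rcases Int.isUnit_iff.1 h3 with h4 | h4 <;> omega
  · intro h0
    have h1 := w_grow u h m
    rw [h0] at h1
    have := abs_nonneg (w u 1 m)
    simp at h1
    omega

end Pool.Agent.TH191.CP
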