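import Mathlib
import Pool.Agent.TH191.CP.Seq

set_option autoImplicit false

namespace Pool.Agent.TH191.CP

open Polynomial

theorem exists_l {k : Type} [Field k] [IsAlgClosed k] (β : k) : ∃ l : k, l ≠ 0 ∧ l + l⁻¹ = β := by
  obtain ⟨l, hl⟩ := IsAlgClosed.exists_root (X ^ 2 - Polynomial.C β * X + 1 : k[X]) (by
    have h2 : (X ^ 2 - Polynomial.C β * X + 1 : k[X]).natDegree = 2 := by compute_degree!
    intro h
    have h3 := natDegree_eq_zero_iff_degree_le_zero.2 h.le
    rw [h2] at h3
    exact absurd h3 (by norm_num))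
  have h1 : l ^ 2 - β * l + 1 = 0 := by
    have := hl
    simp only [IsRoot, eval_add, eval_sub, eval_pow, eval_X, eval_mul, eval_C, eval_one] at this
    exact this
  have h0 : l ≠ 0 := by
    rintro rfl
    simp at h1
  refine ⟨l, h0, ?_⟩
  field_simp
  linear_combination h1

theorem key {k : Type} [Field k] [IsAlgClosed k] (p : ℕ) [hp : Fact p.Prime] [CharP k p] (u v : ℤ)
    (β : k) (hv : (v : k) ≠ 0) (hβ : (v : k) * β = u) (N : ℕ)
    (h : ((Chebyshev.C k N).eval β) ^ 2 = 4) :
    (p : ℤ) ∣ u ^ 2 - 4 * v ^ 2 ∨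
      ∃ e : ℕ, e ∣ N ∧ (p : ℤ) ∣ w u v e ∧ (e ∣ p - 1 ∨ e ∣ p + 1) := by
  obtain ⟨l, hl0, hl⟩ := exists_l β
  have hll : l * l⁻¹ = 1 := mul_inv_cancel₀ hl0
  by_cases h1 : l ^ 2 = 1
  · left
    rw [← CharP.intCast_eq_zero_iff k p]
    push_cast
    rw [← hβ, ← hl]
    have h2 : l⁻¹ = l := by
      field_simp
      exact h1.symm
    rw [h2]
    linear_combination (v : k) ^ 2 * 4 * h1
  · right
    have hNv := (C_val hl0 N).1
    rw [hl] at hNv
    rw [hNv] at h
    have h2 : (l ^ N - l⁻¹ ^ N) ^ 2 = 0 := by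
      have : l ^ N * l⁻¹ ^ N = 1 := by rw [← mul_pow, hll, one_pow]
      linear_combination h - 4 * this
    have h3 : l ^ N = l⁻¹ ^ N := sub_eq_zero.1 (pow_eq_zero_iff (two_ne_zero) |>.1 h2)
    have h4 : (l ^ 2) ^ N = 1 := by
      rw [← pow_mul, mul_comm, pow_mul, pow_two]
      nth_rewrite 1 [h3]
      rw [← mul_pow, inv_mul_cancel₀ hl0, one_pow]
    have hb : β ^ p = β := by
      have e1 : ((v : k) * β) ^ p = (v : k) * β := by
        rw [hβ]
        have := map_intCast (frobenius k p) u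
        rwa [frobenius_def] at this
      rw [mul_pow] at e1
      have e2 : (v : k) ^ p = v := by
        have := map_intCast (frobenius k p) v
        rwa [frobenius_def] at this
      rw [e2] at e1
      exact mul_left_cancel₀ hv e1
    have h5 : l ^ p + (l ^ p)⁻¹ = l + l⁻¹ := by
      rw [← inv_pow, ← add_pow_char, hl, hb]
    have hlp : l ^ p ≠ 0 := pow_ne_zero _ hl0
    have h6 : (l ^ p - l) * (l ^ (p + 1) - 1) = 0 := by
      have e3 : l ^ p * (l ^ p)⁻¹ = 1 := mul_inv_cancel₀ hlp
      have e4 : l * l ^ p * ((l ^ p + (l ^ p)⁻¹) - (l + l⁻¹)) = 0 := by rw [h5, sub_self, mul_zero]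
      rw [pow_succ]
      linear_combination e4 - l * e3 + l ^ p * hll
    have hp1 : 1 ≤ p := hp.out.one_lt.le
    refine ⟨orderOf (l ^ 2), orderOf_dvd_of_pow_eq_one h4, ?_, ?_⟩
    · have h7 : (l ^ 2) ^ orderOf (l ^ 2) = 1 := pow_orderOf_eq_one _
      set e := orderOf (l ^ 2) with he
      have h8 : l ^ e - l⁻¹ ^ e = 0 := by
        have e1 : l ^ e * l ^ e = 1 := by
          rw [← pow_add, ← two_mul, pow_mul]
          exact h7
        have e2 : l ^ e * l⁻¹ ^ e = 1 := by rw [← mul_pow, hll, one_pow]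
        have e3 : l ^ e ≠ 0 := pow_ne_zero _ hl0
        have : l ^ e * (l ^ e - l⁻¹ ^ e) = 0 := by linear_combination e1 - e2
        exact (mul_eq_zero.1 this).resolve_left e3
      have h9 := (S_val hl0 e).1
      rw [h8, hl] at h9
      have h10 : l - l⁻¹ ≠ 0 := by
        intro h11
        apply h1
        have : l * (l - l⁻¹) = 0 := by rw [h11, mul_zero]
        linear_combination this + hll
      have h12 : (Chebyshev.S k ((e : ℤ) - 1)).eval β = 0 := (mul_eq_zero.1 h9).resolve_right h10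
      have h13 := (w_val u v β hβ e).1
      rw [h12, mul_zero] at h13
      rw [← CharP.intCast_eq_zero_iff k p]
      exact (mul_eq_zero.1 h13).resolve_left hv
    · rcases mul_eq_zero.1 h6 with h7 | h7
      · left
        apply orderOf_dvd_of_pow_eq_one
        have e1 : l ^ p = l := sub_eq_zero.1 h7
        have e2 : l ^ (p - 1) = 1 := by
          have : l * l ^ (p - 1) = l * 1 := by
            rw [← pow_succ', Nat.sub_add_cancel hp1, e1, mul_one]
          exact mul_left_cancel₀ hl0 this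
        rw [← pow_mul, mul_comm, pow_mul, e2, one_pow]
      · right
        apply orderOf_dvd_of_pow_eq_one
        have e1 : l ^ (p + 1) = 1 := sub_eq_zero.1 h7
        rw [← pow_mul, mul_comm, pow_mul, e1, one_pow]

end Pool.Agent.TH191.CP
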