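import Mathlib
import Pool.Agent.TH191.CP.Fld

set_option autoImplicit false

namespace Pool.Agent.TH191.CP

open Polynomial

/-- the primes `p`, `p`-integral for `f` and `α`, such that some `f^n(α)` is congruent to a critical
point of `f` modulo (a prime above) `p` -/
def S (f : ℚ[X]) (α : ℚ) : Set ℕ :=
  {p | p.Prime ∧ (∀ i, ¬ p ∣ (f.coeff i).den) ∧ ¬ p ∣ α.den ∧
    ∃ n : ℕ, ∃ c : AlgebraicClosure ℚ, aeval c (derivative f) = 0 ∧
      ∃ V : ValuationSubring (AlgebraicClosure ℚ), (p : AlgebraicClosure ℚ) ∈ V.nonunits ∧ c ∈ V ∧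
        algebraMap ℚ (AlgebraicClosure ℚ) ((fun x => f.eval x)^[n] α) - c ∈ V.nonunits}

theorem C_hom {R R' : Type} [CommRing R] [CommRing R'] (φ : R →+* R') (n : ℤ) (x : R) :
    φ ((Chebyshev.C R n).eval x) = (Chebyshev.C R' n).eval (φ x) := by
  rw [← Chebyshev.map_C φ n, eval_map, eval₂_hom]

theorem C_neg_sq {R : Type} [CommRing R] (n : ℕ) (x : R) :
    (Chebyshev.C R n).eval (-x) = (-1) ^ n * (Chebyshev.C R n).eval x ∧
    (Chebyshev.C R ((n : ℤ) + 1)).eval (-x) = (-1) ^ (n + 1) * (Chebyshev.C R ((n : ℤ) + 1)).eval x := by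
  induction n with
  | zero => simp
  | succ n ih =>
    refine ⟨by exact_mod_cast ih.2, ?_⟩
    have e : (((n + 1 : ℕ) : ℤ) + 1) = (n : ℤ) + 2 := by push_cast; ring
    rw [e, Chebyshev.C_add_two, eval_sub, eval_mul, eval_X, eval_sub, eval_mul, eval_X, ih.1, ih.2]
    ring

/-- an integer prime to `p` is a unit at `V` -/
theorem unit_of_not_dvd {K : Type} [Field K] (V : ValuationSubring K) (p : ℕ)
    (hp : (p : K) ∈ V.nonunits) (n : ℤ) (hn : IsCoprime (p : ℤ) n) : V.valuation (n : K) = 1 := by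
  have h1 : V.valuation (n : K) ≤ 1 := (V.valuation_le_one_iff _).2 (intCast_mem V n)
  by_contra h2
  have h3 : V.valuation (n : K) < 1 := lt_of_le_of_ne h1 h2
  obtain ⟨a, b, hab⟩ := hn
  have h4 : ((a * p + b * n : ℤ) : K) = 1 := by rw [hab]; simp
  push_cast at h4
  have ha : V.valuation (a : K) ≤ 1 := (V.valuation_le_one_iff _).2 (intCast_mem V a)
  have hb : V.valuation (b : K) ≤ 1 := (V.valuation_le_one_iff _).2 (intCast_mem V b)
  have hp' : V.valuation (p : K) < 1 := (ValuationSubring.mem_nonunits_iff V).1 hp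
  have h5 : V.valuation ((a : K) * p + b * n) < 1 := by
    refine lt_of_le_of_lt (V.valuation.map_add _ _) (max_lt ?_ ?_)
    · rw [map_mul]
      exact (mul_le_mul' ha le_rfl).trans_lt (by rw [one_mul]; exact hp')
    · rw [map_mul]
      exact (mul_le_mul' hb le_rfl).trans_lt (by rw [one_mul]; exact h3)
  rw [h4, map_one] at h5
  exact lt_irrefl _ h5

abbrev Kb : Type := AlgebraicClosure ℚ

theorem core (d : ℕ) (hd : 2 ≤ d) (s : ℤ) (hs : s = 1 ∨ s = -1) (α : ℚ) (p : ℕ)
    (hp : p ∈ S (Polynomial.C (s : ℚ) * Chebyshev.C ℚ d) α) :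
    p.Prime ∧ ((p : ℤ) ∣ α.num ^ 2 - 4 * (α.den : ℤ) ^ 2 ∨
      ∃ e : ℕ, 1 ≤ e ∧ e.primeFactors ⊆ d.primeFactors ∧ (p : ℤ) ∣ w α.num α.den e ∧
        (e ∣ p - 1 ∨ e ∣ p + 1)) := by
  obtain ⟨hpp, -, hden, n, c, hc, V, hpV, hcV, hdiff⟩ := hp
  refine ⟨hpp, ?_⟩
  have : Fact p.Prime := ⟨hpp⟩
  -- the residue field
  let κ := IsLocalRing.ResidueField V
  let k := AlgebraicClosure κ
  let φ : V →+* k := (algebraMap κ k).comp (IsLocalRing.residue V)
  have hφ0 : ∀ x : V, (x : Kb) ∈ V.nonunits → φ x = 0 := by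
    intro x hx
    have h1 : x ∈ IsLocalRing.maximalIdeal V := ValuationSubring.coe_mem_nonunits_iff.1 hx
    show (algebraMap κ k) (IsLocalRing.residue V x) = 0
    rw [(IsLocalRing.residue_eq_zero_iff x).2 h1, map_zero]
  have hpk : (p : k) = 0 := by
    have h1 := hφ0 (p : V) (by simpa using hpV)
    simpa using h1
  have : CharP k p := by
    have h1 := ringChar.dvd hpk
    rcases (Nat.dvd_prime hpp).1 h1 with h2 | h2
    · exact absurd h2 (CharP.ringChar_ne_one)
    · exact ringChar.of_eq h2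
  -- `α` is integral at `V`
  have hcop : IsCoprime (p : ℤ) (α.den : ℤ) :=
    Nat.isCoprime_iff_coprime.2 ((Nat.Prime.coprime_iff_not_dvd hpp).2 hden)
  have hvd : V.valuation ((α.den : ℤ) : Kb) = 1 := unit_of_not_dvd V p hpV _ hcop
  have hαK : ((α.den : ℤ) : Kb) * algebraMap ℚ Kb α = ((α.num : ℤ) : Kb) := by
    have h1 : ((α.den : ℤ) : ℚ) * α = ((α.num : ℤ) : ℚ) := by
      have := Rat.mul_den_eq_num α
      push_cast
      linarith
    have h2 := congrArg (algebraMap ℚ Kb) h1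
    rw [map_mul, map_intCast, map_intCast] at h2
    exact h2
  have hαV : algebraMap ℚ Kb α ∈ V := by
    rw [← V.valuation_le_one_iff]
    have h1 : V.valuation (((α.den : ℤ) : Kb) * algebraMap ℚ Kb α) ≤ 1 := by
      rw [hαK]
      exact (V.valuation_le_one_iff _).2 (intCast_mem V _)
    rwa [map_mul, hvd, one_mul] at h1
  let a : V := ⟨algebraMap ℚ Kb α, hαV⟩
  let c' : V := ⟨c, hcV⟩
  let β : k := φ a
  have hβ : ((α.den : ℤ) : k) * β = ((α.num : ℤ) : k) := by
    have h1 : ((α.den : ℤ) : V) * a = ((α.num : ℤ) : V) := by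
      apply Subtype.ext
      have : ((((α.den : ℤ) : V) * a : V) : Kb) = ((α.den : ℤ) : Kb) * algebraMap ℚ Kb α := by
        push_cast
        rfl
      rw [this, hαK]
      simp
    have h2 := congrArg φ h1
    rw [map_mul, map_intCast, map_intCast] at h2
    exact h2
  have hv0 : ((α.den : ℤ) : k) ≠ 0 := by
    rw [Ne, CharP.intCast_eq_zero_iff k p]
    intro h
    exact hden (by exact_mod_cast h)
  -- the sign
  have hs2 : s * s = 1 := by rcases hs with rfl | rfl <;> norm_num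
  have hit : ∀ m : ℕ, (fun x => (Polynomial.C (s : ℚ) * Chebyshev.C ℚ d).eval x)^[m] α =
      (Chebyshev.C ℚ ((d ^ m : ℕ) : ℤ)).eval α ∨
      (fun x => (Polynomial.C (s : ℚ) * Chebyshev.C ℚ d).eval x)^[m] α =
      - (Chebyshev.C ℚ ((d ^ m : ℕ) : ℤ)).eval α := by
    intro m
    induction m with
    | zero => left; simp
    | succ m ih =>
      rw [Function.iterate_succ_apply']
      have h1 : (Chebyshev.C ℚ ((d ^ (m + 1) : ℕ) : ℤ)).eval α =
          (Chebyshev.C ℚ (d : ℤ)).eval ((Chebyshev.C ℚ ((d ^ m : ℕ) : ℤ)).eval α) := by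
        rw [pow_succ', Nat.cast_mul, Chebyshev.C_mul, eval_comp]
      rw [h1, eval_mul, eval_C]
      have h2 : ∀ y : ℚ, (Chebyshev.C ℚ (d : ℤ)).eval (-y) = (Chebyshev.C ℚ (d : ℤ)).eval y ∨
          (Chebyshev.C ℚ (d : ℤ)).eval (-y) = -(Chebyshev.C ℚ (d : ℤ)).eval y := by
        intro y
        rw [(C_neg_sq d y).1]
        rcases neg_one_pow_eq_or ℚ d with h | h <;> rw [h] <;> simp
      rcases ih with h | h <;> rw [h] <;> rcases hs with rfl | rfl
      · left; simp
      · right; simp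
      · rcases h2 ((Chebyshev.C ℚ ((d ^ m : ℕ) : ℤ)).eval α) with h3 | h3 <;> rw [h3] <;> simp
      · rcases h2 ((Chebyshev.C ℚ ((d ^ m : ℕ) : ℤ)).eval α) with h3 | h3 <;> rw [h3] <;> simp
  have hcrit : ((Chebyshev.C Kb d).eval c) ^ 2 = 4 := by
    apply crit (by omega)
    have h1 : aeval c (derivative (Polynomial.C (s : ℚ) * Chebyshev.C ℚ d)) =
        (s : Kb) * (derivative (Chebyshev.C Kb d)).eval c := by
      rw [derivative_C_mul, map_mul, aeval_C]
      have h2 : aeval c (derivative (Chebyshev.C ℚ (d : ℤ))) =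
          (derivative (Chebyshev.C Kb (d : ℤ))).eval c := by
        rw [← Chebyshev.map_C (algebraMap ℚ Kb) (d : ℤ), derivative_map, eval_map, aeval_def]
      rw [h2]
      simp
    rw [h1] at hc
    have hs0 : (s : Kb) ≠ 0 := by rcases hs with rfl | rfl <;> simp
    exact (mul_eq_zero.1 hc).resolve_left hs0
  have hcV2 : ((Chebyshev.C V d).eval c') ^ 2 = 4 := by
    apply Subtype.ext
    have h1 := C_hom (V.subtype) (d : ℤ) c'
    have h2 : V.subtype (((Chebyshev.C V d).eval c') ^ 2) = V.subtype 4 := by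
      rw [map_pow, h1]
      have : V.subtype c' = c := rfl
      rw [this, hcrit]
      exact (map_ofNat V.subtype 4).symm
    exact h2
  have hk4 : ((Chebyshev.C k d).eval (φ c')) ^ 2 = 4 := by
    rw [← C_hom φ, ← map_pow, hcV2]
    exact map_ofNat φ 4
  have hres : (Chebyshev.C k ((d ^ n : ℕ) : ℤ)).eval β = φ c' ∨
      (Chebyshev.C k ((d ^ n : ℕ) : ℤ)).eval β = - φ c' := by
    have h0 : V.subtype ((Chebyshev.C V ((d ^ n : ℕ) : ℤ)).eval a) =
        algebraMap ℚ Kb ((Chebyshev.C ℚ ((d ^ n : ℕ) : ℤ)).eval α) := by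
      rw [C_hom, C_hom]
      rfl
    rcases hit n with h | h <;> rw [h] at hdiff
    · left
      have h1 := hφ0 ((Chebyshev.C V ((d ^ n : ℕ) : ℤ)).eval a - c') (by
        have : (((Chebyshev.C V ((d ^ n : ℕ) : ℤ)).eval a - c' : V) : Kb) =
          algebraMap ℚ Kb ((Chebyshev.C ℚ ((d ^ n : ℕ) : ℤ)).eval α) - c := by
          rw [← h0]; rfl
        rw [this]
        exact hdiff)
      rw [map_sub, C_hom] at h1
      exact sub_eq_zero.1 h1
    · right
      have h1 := hφ0 (-(Chebyshev.C V ((d ^ n : ℕ) : ℤ)).eval a - c') (by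
        have : ((-(Chebyshev.C V ((d ^ n : ℕ) : ℤ)).eval a - c' : V) : Kb) =
          algebraMap ℚ Kb (-(Chebyshev.C ℚ ((d ^ n : ℕ) : ℤ)).eval α) - c := by
          rw [map_neg, ← h0]; rfl
        rw [this]
        exact hdiff)
      rw [map_sub, map_neg, C_hom] at h1
      have : (Chebyshev.C k ((d ^ n : ℕ) : ℤ)).eval β + φ c' = 0 := by linear_combination -h1
      exact eq_neg_of_add_eq_zero_left this
  have hN : ((Chebyshev.C k ((d ^ (n + 1) : ℕ) : ℤ)).eval β) ^ 2 = 4 := by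
    have e : ((d ^ (n + 1) : ℕ) : ℤ) = (d : ℤ) * ((d ^ n : ℕ) : ℤ) := by push_cast; ring
    rw [e, Chebyshev.C_mul, eval_comp]
    rcases hres with h | h <;> rw [h]
    · exact hk4
    · rw [(C_neg_sq d _).1, mul_pow, hk4, ← pow_mul, mul_comm d 2, pow_mul]
      simp
  rcases key p α.num α.den β hv0 hβ (d ^ (n + 1)) hN with h | ⟨e, he1, he2, he3⟩
  · exact Or.inl h
  · right
    have hd0 : d ^ (n + 1) ≠ 0 := pow_ne_zero _ (by omega)
    refine ⟨e, Nat.pos_of_dvd_of_pos he1 (Nat.pos_of_ne_zero hd0), ?_, he2, he3⟩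
    refine (Nat.primeFactors_mono he1 hd0).trans ?_
    rw [Nat.primeFactors_pow _ (by omega)]

end Pool.Agent.TH191.CP
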