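import Mathlib
import Pool.Agent.TH191.CP.Val

set_option autoImplicit false

namespace Pool.Agent.TH191.CP

open Polynomial

theorem pow_inj {p : ℕ} [Fact p.Prime] {l : ℕ} (hl : 2 ≤ l) (hco : Nat.Coprime l (p - 1)) :
    Function.Injective fun x : ZMod p => x ^ l := by
  have hl0 : l ≠ 0 := by omega
  intro x y hxy
  have hxy' : x ^ l = y ^ l := hxy
  by_cases hy : y = 0
  · subst hy
    rw [zero_pow hl0] at hxy'
    exact pow_eq_zero_iff hl0 |>.1 hxy'
  · have hx : x ≠ 0 := by
      rintro rfl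
      rw [zero_pow hl0] at hxy'
      exact hy (pow_eq_zero_iff hl0 |>.1 hxy'.symm)
    have h1 : (x / y) ^ l = 1 := by
      rw [div_pow, hxy', div_self (pow_ne_zero _ hy)]
    have h2 : (x / y) ^ (p - 1) = 1 := ZMod.pow_card_sub_one_eq_one (div_ne_zero hx hy)
    have h3 : (x / y) ^ Nat.gcd l (p - 1) = 1 := pow_gcd_eq_one.2 ⟨h1, h2⟩
    rw [Nat.Coprime] at hco
    rw [hco, pow_one] at h3
    exact (div_eq_one_iff_eq hy).1 h3

theorem back {p : ℕ} [Fact p.Prime] {l : ℕ} (hl : 2 ≤ l) (h : Nat.Coprime l (p - 1)) (b a t β : ZMod p)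
    (hb : b ≠ 0) (j k : ℕ)
    (hjk : (fun x : ZMod p => b * (x - t) ^ l + a)^[j] β = (fun x : ZMod p => b * (x - t) ^ l + a)^[k] t) :
    ∃ n, (fun x : ZMod p => b * (x - t) ^ l + a)^[n] β = t := by
  classical
  set g := (fun x : ZMod p => b * (x - t) ^ l + a) with hg
  have hinj : Function.Injective g := fun x y hxy => by
    have h1 : b * (x - t) ^ l = b * (y - t) ^ l := add_right_cancel hxy
    have h2 : (x - t) ^ l = (y - t) ^ l := mul_left_cancel₀ hb h1
    have h3 : x - t = y - t := pow_inj hl h h2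
    exact sub_left_injective h3
  have hbij : Function.Bijective g := hinj.bijective_of_finite
  let σ : Equiv.Perm (ZMod p) := Equiv.ofBijective g hbij
  have hσ : ∀ n x, g^[n] x = (σ ^ n) x := by
    intro n x
    rw [← Equiv.Perm.iterate_eq_pow]
    rfl
  have hM : 0 < orderOf σ := orderOf_pos σ
  have hM1 : σ ^ orderOf σ = 1 := pow_orderOf_eq_one σ
  refine ⟨(orderOf σ * k - k) + j, ?_⟩
  rw [Function.iterate_add_apply, hjk, ← Function.iterate_add_apply, hσ]
  have : orderOf σ * k - k + k = orderOf σ * k := Nat.sub_add_cancel (Nat.le_mul_of_pos_left k hM)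
  rw [this, pow_mul, hM1, one_pow]
  rfl

/-- there is a place above `p` -/
theorem exists_V (p : ℕ) (hp : p.Prime) :
    ∃ V : ValuationSubring (AlgebraicClosure ℚ), (p : AlgebraicClosure ℚ) ∈ V.nonunits := by
  let A : Subring (AlgebraicClosure ℚ) := (Int.castRingHom (AlgebraicClosure ℚ)).range
  let q : A := ⟨(p : AlgebraicClosure ℚ), ⟨(p : ℤ), by simp⟩⟩
  have hI : Ideal.span {q} ≠ ⊤ := by
    rw [Ne, Ideal.eq_top_iff_one, Ideal.mem_span_singleton]
    rintro ⟨⟨_, z, rfl⟩, hz⟩
    have h1 := congrArg Subtype.val hz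
    have h2 : (1 : AlgebraicClosure ℚ) = (p : AlgebraicClosure ℚ) * ((z : ℤ) : AlgebraicClosure ℚ) := h1
    have h3 : (1 : ℤ) = (p : ℤ) * z := by exact_mod_cast h2
    have h4 : (p : ℤ) ∣ 1 := ⟨z, h3⟩
    have h5 : p ∣ 1 := by exact_mod_cast h4
    exact hp.one_lt.ne' (Nat.dvd_one.1 h5)
  obtain ⟨V, -, hV⟩ := Ideal.image_subset_nonunits_valuationSubring _ hI
  exact ⟨V, hV ⟨q, Ideal.subset_span rfl, rfl⟩⟩

theorem binom (l : ℕ) (hl : 2 ≤ l) (b a t α : ℚ) (j k : ℕ)
    (hjk : (fun x : ℚ => b * (x - t) ^ l + a)^[j] α = (fun x : ℚ => b * (x - t) ^ l + a)^[k] t)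
    (p : ℕ) (hp : p.Prime) (h : Nat.Coprime l (p - 1)) (hbn : ¬ (p : ℤ) ∣ b.num) (hbd : ¬ p ∣ b.den)
    (ha : ¬ p ∣ a.den) (ht : ¬ p ∣ t.den) (hα : ¬ p ∣ α.den) :
    p ∈ S (Polynomial.C b * (X - Polynomial.C t) ^ l + Polynomial.C a) α := by
  have hfact : Fact p.Prime := ⟨hp⟩
  have hf : (fun x => (Polynomial.C b * (X - Polynomial.C t) ^ l + Polynomial.C a : ℚ[X]).eval x) =
      fun x : ℚ => b * (x - t) ^ l + a := by
    funext x
    simp
  -- `p`-integral rationals
  let Zp : Subring ℚ :=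
    { carrier := {r | ¬ p ∣ r.den}
      mul_mem' := fun {x y} hx hy hd => by
        have h1 : p ∣ x.den * y.den := hd.trans (Rat.mul_den_dvd x y)
        rcases hp.dvd_mul.1 h1 with h2 | h2
        · exact hx h2
        · exact hy h2
      one_mem' := by
        show ¬ p ∣ (1 : ℚ).den
        intro h1
        exact hp.one_lt.ne' (Nat.dvd_one.1 (by simpa using h1))
      add_mem' := fun {x y} hx hy hd => by
        have h1 : p ∣ x.den * y.den := hd.trans (Rat.add_den_dvd x y)
        rcases hp.dvd_mul.1 h1 with h2 | h2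
        · exact hx h2
        · exact hy h2
      zero_mem' := by
        show ¬ p ∣ (0 : ℚ).den
        intro h1
        exact hp.one_lt.ne' (Nat.dvd_one.1 (by simpa using h1))
      neg_mem' := fun {x} hx => by
        show ¬ p ∣ (-x).den
        rw [Rat.neg_den]
        exact hx }
  refine ⟨hp, ?_, hα, ?_⟩
  · have hmap : (Polynomial.C (⟨b, hbd⟩ : Zp) * (X - Polynomial.C (⟨t, ht⟩ : Zp)) ^ l +
        Polynomial.C (⟨a, ha⟩ : Zp)).map Zp.subtype =
        (Polynomial.C b * (X - Polynomial.C t) ^ l + Polynomial.C a : ℚ[X]) := by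
      simp
    intro i
    rw [← hmap, coeff_map]
    exact (Polynomial.coeff _ i : Zp).2
  · obtain ⟨V, hV⟩ := exists_V p hp
    -- the values of the orbit in `V`
    have unit : ∀ r : ℚ, ¬ p ∣ r.den →
        V.valuation ((r.den : ℤ) : Kb) = 1 := fun r hr =>
      unit_of_not_dvd V p hV _ (Nat.isCoprime_iff_coprime.2 ((Nat.Prime.coprime_iff_not_dvd hp).2 hr))
    have hrK : ∀ r : ℚ, ((r.den : ℤ) : Kb) * algebraMap ℚ Kb r = ((r.num : ℤ) : Kb) := by
      intro r
      have h1 : ((r.den : ℤ) : ℚ) * r = ((r.num : ℤ) : ℚ) := by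
        have := Rat.mul_den_eq_num r
        push_cast
        linarith
      have h2 := congrArg (algebraMap ℚ Kb) h1
      rw [map_mul, map_intCast, map_intCast] at h2
      exact h2
    have mem : ∀ r : ℚ, ¬ p ∣ r.den → algebraMap ℚ Kb r ∈ V := by
      intro r hr
      rw [← V.valuation_le_one_iff]
      have h1 : V.valuation (((r.den : ℤ) : Kb) * algebraMap ℚ Kb r) ≤ 1 := by
        rw [hrK]
        exact (V.valuation_le_one_iff _).2 (intCast_mem V _)
      rwa [map_mul, unit r hr, one_mul] at h1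
    let κ := IsLocalRing.ResidueField V
    let φ : V →+* κ := IsLocalRing.residue V
    have hφ : ∀ x : V, φ x = 0 ↔ (x : Kb) ∈ V.nonunits := by
      intro x
      rw [ValuationSubring.coe_mem_nonunits_iff]
      exact IsLocalRing.residue_eq_zero_iff x
    have hpk : (p : κ) = 0 := by
      have h1 := (hφ (p : V)).2 (by simpa using hV)
      simpa using h1
    have hchar : CharP κ p := by
      have h1 := ringChar.dvd hpk
      rcases (Nat.dvd_prime hp).1 h1 with h2 | h2
      · exact absurd h2 (CharP.ringChar_ne_one)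
      · exact ringChar.of_eq h2
    let ψ : ZMod p →+* κ := ZMod.castHom dvd_rfl κ
    have hψ : ∀ r : ℚ, ∀ hr : ¬ p ∣ r.den, φ ⟨algebraMap ℚ Kb r, mem r hr⟩ =
        ψ ((r.num : ZMod p) / ((r.den : ℤ) : ZMod p)) := by
      intro r hr
      have hd0 : ((r.den : ℤ) : ZMod p) ≠ 0 := by
        intro h0
        rw [ZMod.intCast_zmod_eq_zero_iff_dvd] at h0
        exact hr (by exact_mod_cast h0)
      have h1 : ((r.den : ℤ) : V) * (⟨algebraMap ℚ Kb r, mem r hr⟩ : V) = ((r.num : ℤ) : V) := by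
        apply Subtype.ext
        have : ((((r.den : ℤ) : V) * (⟨algebraMap ℚ Kb r, mem r hr⟩ : V) : V) : Kb) =
            ((r.den : ℤ) : Kb) * algebraMap ℚ Kb r := by
          push_cast
          rfl
        rw [this, hrK]
        simp
      have h2 := congrArg φ h1
      rw [map_mul, map_intCast, map_intCast] at h2
      have h3 : ψ ((r.den : ℤ) : ZMod p) * ψ ((r.num : ZMod p) / ((r.den : ℤ) : ZMod p)) =
          ψ (r.num : ZMod p) := by
        rw [← map_mul, mul_div_cancel₀ _ hd0]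
      rw [map_intCast, map_intCast] at h3
      have h4 : ((r.den : ℤ) : κ) ≠ 0 := by
        intro h0
        rw [CharP.intCast_eq_zero_iff κ p] at h0
        exact hr (by exact_mod_cast h0)
      exact mul_left_cancel₀ h4 (h2.trans h3.symm)
    set a0 : ZMod p := (a.num : ZMod p) / ((a.den : ℤ) : ZMod p) with ha0
    set t0 : ZMod p := (t.num : ZMod p) / ((t.den : ℤ) : ZMod p) with ht0
    set c0 : ZMod p := (b.num : ZMod p) / ((b.den : ℤ) : ZMod p) with hc0
    set b0 : ZMod p := (α.num : ZMod p) / ((α.den : ℤ) : ZMod p) with hb0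
    have hc0' : c0 ≠ 0 := by
      rw [hc0]
      apply div_ne_zero
      · intro h0
        rw [ZMod.intCast_zmod_eq_zero_iff_dvd] at h0
        exact hbn h0
      · intro h0
        rw [ZMod.intCast_zmod_eq_zero_iff_dvd] at h0
        exact hbd (by exact_mod_cast h0)
    -- iterates
    let av : V := ⟨algebraMap ℚ Kb a, mem a ha⟩
    let tv : V := ⟨algebraMap ℚ Kb t, mem t ht⟩
    let bv : V := ⟨algebraMap ℚ Kb b, mem b hbd⟩
    have hit : ∀ (y : ℚ) (yv : V) (y0 : ZMod p), (yv : Kb) = algebraMap ℚ Kb y → φ yv = ψ y0 →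
        ∀ n : ℕ, (((fun x : V => bv * (x - tv) ^ l + av)^[n] yv : V) : Kb) =
          algebraMap ℚ Kb ((fun x : ℚ => b * (x - t) ^ l + a)^[n] y) ∧
        φ ((fun x : V => bv * (x - tv) ^ l + av)^[n] yv) =
          ψ ((fun x : ZMod p => c0 * (x - t0) ^ l + a0)^[n] y0) := by
      intro y yv y0 h1 h2 n
      induction n with
      | zero => exact ⟨h1, h2⟩
      | succ n ih =>
        rw [Function.iterate_succ_apply', Function.iterate_succ_apply', Function.iterate_succ_apply']
        constructor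
        · rw [map_add, map_mul, map_pow, map_sub, ← ih.1]
          rfl
        · rw [map_add, map_mul, map_pow, map_sub, ih.2, map_add, map_mul, map_pow, map_sub]
          rw [show φ av = ψ a0 from hψ a ha, show φ tv = ψ t0 from hψ t ht,
            show φ bv = ψ c0 from hψ b hbd]
    let αv : V := ⟨algebraMap ℚ Kb α, mem α hα⟩
    have hA := hit α αv b0 rfl (hψ α hα)
    have hB := hit t tv t0 rfl (hψ t ht)
    have hjk0 : (fun x : ZMod p => c0 * (x - t0) ^ l + a0)^[j] b0 =
        (fun x : ZMod p => c0 * (x - t0) ^ l + a0)^[k] t0 := by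
      have h1 : (fun x : V => bv * (x - tv) ^ l + av)^[j] αv =
          (fun x : V => bv * (x - tv) ^ l + av)^[k] tv := by
        apply Subtype.ext
        rw [(hA j).1, (hB k).1, hjk]
      have h2 := congrArg φ h1
      rw [(hA j).2, (hB k).2] at h2
      exact ψ.injective h2
    obtain ⟨n, hn⟩ := back hl h c0 a0 t0 b0 hc0' j k hjk0
    refine ⟨n, algebraMap ℚ _ t, ?_, V, hV, mem t ht, ?_⟩
    · have : l - 1 ≠ 0 := by omega
      have hl0 : l ≠ 0 := by omega
      simp [derivative_pow, this]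
    · rw [hf]
      have h1 := (hA n).2
      rw [hn, ← show φ tv = ψ t0 from hψ t ht] at h1
      have h2 : φ ((fun x : V => bv * (x - tv) ^ l + av)^[n] αv - tv) = 0 := by
        rw [map_sub, h1, sub_self]
      rw [hφ] at h2
      have h3 : (((fun x : V => bv * (x - tv) ^ l + av)^[n] αv - tv : V) : Kb) =
          algebraMap ℚ Kb ((fun x : ℚ => b * (x - t) ^ l + a)^[n] α) - algebraMap ℚ Kb t := by
        rw [← (hA n).1]
        rfl
      rw [h3] at h2
      exact h2

end Pool.Agent.TH191.CP
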