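import Mathlib
import Pool.Agent.TH191.CP.Val

set_option autoImplicit false

namespace Pool.Agent.TH191.CP

open Polynomial

/-- the polynomial `m g((x - t)/m) + t` -/
noncomputable def conj (m t : ℚ) (g : ℚ[X]) : ℚ[X] :=
  Polynomial.C m * g.comp (Polynomial.C m⁻¹ * (X - Polynomial.C t)) + Polynomial.C t

theorem conj_eval (m t : ℚ) (g : ℚ[X]) (x : ℚ) :
    (conj m t g).eval x = m * g.eval (m⁻¹ * (x - t)) + t := by
  simp [conj, eval_comp]

theorem conj_iter (m t : ℚ) (hm : m ≠ 0) (g : ℚ[X]) (a : ℚ) (n : ℕ) :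
    (fun x => (conj m t g).eval x)^[n] (m * a + t) = m * ((fun x => g.eval x)^[n] a) + t := by
  induction n with
  | zero => rfl
  | succ n ih =>
    rw [Function.iterate_succ_apply', Function.iterate_succ_apply', ih, conj_eval,
      add_sub_cancel_right, inv_mul_cancel_left₀ hm]

theorem S_conj (m t : ℚ) (hm : m ≠ 0) (g : ℚ[X]) (a : ℚ) (p : ℕ)
    (hp : p ∈ S (conj m t g) (m * a + t)) (h1 : ¬ (p : ℤ) ∣ m.num) (h3 : ¬ p ∣ t.den)
    (h4 : ¬ p ∣ a.den) (h5 : ∀ i, ¬ p ∣ (g.coeff i).den) : p ∈ S g a := by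
  obtain ⟨hpp, -, -, n, c, hc, V, hpV, hcV, hdiff⟩ := hp
  refine ⟨hpp, h5, h4, n, algebraMap ℚ _ m⁻¹ * (c - algebraMap ℚ _ t), ?_, V, hpV, ?_, ?_⟩
  · have e1 : derivative (conj m t g) =
        (derivative g).comp (Polynomial.C m⁻¹ * (X - Polynomial.C t)) := by
      unfold conj
      rw [derivative_add, derivative_C, add_zero, derivative_C_mul, derivative_comp, derivative_C_mul,
        derivative_sub, derivative_X, derivative_C, sub_zero, mul_one, ← mul_assoc, ← C_mul,
        mul_inv_cancel₀ hm, C_1, one_mul]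
    rw [e1, aeval_comp] at hc
    simpa using hc
  all_goals
    have unit : ∀ r : ℤ, ¬ (p : ℤ) ∣ r → V.valuation ((r : ℤ) : Kb) = 1 := fun r hr =>
      unit_of_not_dvd V p hpV _ ((Int.prime_iff_natAbs_prime.2 (by simpa using hpp)).coprime_iff_not_dvd.2 hr)
    have mem : ∀ r : ℚ, ¬ p ∣ r.den → algebraMap ℚ Kb r ∈ V := by
      intro r hr
      have h1 : ((r.den : ℤ) : ℚ) * r = ((r.num : ℤ) : ℚ) := by
        have := Rat.mul_den_eq_num r
        push_cast
        linarith
      have h2 := congrArg (algebraMap ℚ Kb) h1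
      rw [map_mul, map_intCast, map_intCast] at h2
      rw [← V.valuation_le_one_iff]
      have h1 : V.valuation (((r.den : ℤ) : Kb) * algebraMap ℚ Kb r) ≤ 1 := by
        rw [h2]
        exact (V.valuation_le_one_iff _).2 (intCast_mem V _)
      rwa [map_mul, unit (r.den : ℤ) (by exact_mod_cast hr), one_mul] at h1
    have hmi : algebraMap ℚ Kb m⁻¹ ∈ V := by
      apply mem
      rw [Rat.inv_def, Rat.divInt_eq_div]
      intro hd
      apply h1
      have h6 : (((m.den : ℤ) : ℚ) / ((m.num : ℤ) : ℚ)).den ∣ m.num.natAbs := by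
        have := Rat.den_dvd (m.den : ℤ) m.num
        rw [Rat.divInt_eq_div] at this
        exact Int.natCast_dvd.1 this
      exact Int.natCast_dvd.2 (hd.trans h6)
    have htV : algebraMap ℚ Kb t ∈ V := mem t h3
  · exact mul_mem hmi (sub_mem hcV htV)
  · rw [conj_iter m t hm] at hdiff
    have e : algebraMap ℚ Kb ((fun x => g.eval x)^[n] a) -
        algebraMap ℚ Kb m⁻¹ * (c - algebraMap ℚ Kb t) =
        algebraMap ℚ Kb m⁻¹ * (algebraMap ℚ Kb (m * ((fun x => g.eval x)^[n] a) + t) - c) := by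
      have h6 : algebraMap ℚ Kb m⁻¹ * algebraMap ℚ Kb m = 1 := by
        rw [← map_mul, inv_mul_cancel₀ hm, map_one]
      rw [map_add, map_mul]
      linear_combination -(algebraMap ℚ Kb ((fun x => g.eval x)^[n] a)) * h6
    show algebraMap ℚ Kb ((fun x => g.eval x)^[n] a) -
        algebraMap ℚ Kb m⁻¹ * (c - algebraMap ℚ Kb t) ∈ V.nonunits
    rw [e, ValuationSubring.mem_nonunits_iff, map_mul]
    have h7 : V.valuation (algebraMap ℚ Kb m⁻¹) ≤ 1 := (V.valuation_le_one_iff _).2 hmi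
    have h8 := (ValuationSubring.mem_nonunits_iff V).1 hdiff
    exact (mul_le_mul' h7 le_rfl).trans_lt (by rw [one_mul]; exact h8)

end Pool.Agent.TH191.CP
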