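import Mathlib
import Pool.Agent.TH191.CP.Seq

set_option autoImplicit false

namespace Pool.Agent.TH191.CP

open Finset

/-- the integers `e ≤ X` all of whose prime factors divide `d` -/
def Sm (d X : ℕ) : Finset ℕ := (Icc 1 X).filter fun e => e.primeFactors ⊆ d.primeFactors

theorem card_Sm (d X : ℕ) : (Sm d X).card ≤ (Nat.log 2 X + 1) ^ d.primeFactors.card := by
  classical
  have h1 : (Sm d X).card ≤ (Fintype.piFinset (fun _ : d.primeFactors => range (Nat.log 2 X + 1))).card := by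
    apply Finset.card_le_card_of_injOn (fun e => fun q : d.primeFactors => e.factorization q)
    · intro e he
      have he' := Finset.mem_filter.1 (Finset.mem_coe.1 he)
      have he1 := Finset.mem_Icc.1 he'.1
      rw [Finset.mem_coe, Fintype.mem_piFinset]
      intro q
      rw [mem_range]
      have hq : (q : ℕ).Prime := Nat.prime_of_mem_primeFactors q.2
      have h2 : (q : ℕ) ^ e.factorization q ∣ e := Nat.ordProj_dvd e q
      have h3 : 2 ^ e.factorization q ≤ X :=
        (Nat.pow_le_pow_left hq.two_le _).trans ((Nat.le_of_dvd (by omega) h2).trans he1.2)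
      have h4 : e.factorization q ≤ Nat.log 2 X := Nat.le_log_of_pow_le (by norm_num) h3
      show e.factorization q < Nat.log 2 X + 1
      omega
    · intro a ha b hb hab
      have ha' := Finset.mem_filter.1 (Finset.mem_coe.1 ha)
      have hb' := Finset.mem_filter.1 (Finset.mem_coe.1 hb)
      have ha1 := Finset.mem_Icc.1 ha'.1
      have hb1 := Finset.mem_Icc.1 hb'.1
      apply Nat.eq_of_factorization_eq (by omega) (by omega)
      intro q
      by_cases hq : q ∈ d.primeFactors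
      · exact congrFun hab ⟨q, hq⟩
      · have h2 : q ∉ a.primeFactors := fun h => hq (ha'.2 h)
        have h3 : q ∉ b.primeFactors := fun h => hq (hb'.2 h)
        rw [← Nat.support_factorization, Finsupp.notMem_support_iff] at h2 h3
        rw [h2, h3]
  refine h1.trans (le_of_eq ?_)
  rw [Fintype.card_piFinset]
  simp

/-- a nonzero integer of absolute value at most `2 ^ n` has at most `n` prime divisors -/
theorem card_primes_dvd (W : ℤ) (hW : W ≠ 0) (n : ℕ) (h : W.natAbs ≤ 2 ^ n) (T : Finset ℕ)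
    (hT : ∀ p ∈ T, p.Prime ∧ (p : ℤ) ∣ W) : T.card ≤ n := by
  have h1 : T ⊆ W.natAbs.primeFactors := by
    intro p hp
    rw [Nat.mem_primeFactors]
    exact ⟨(hT p hp).1, Int.natCast_dvd.1 (hT p hp).2, by simpa using hW⟩
  have h2 : 2 ^ T.card ≤ ∏ p ∈ T, p := by
    apply Finset.pow_card_le_prod
    intro p hp
    exact (hT p hp).1.two_le
  have h3 : ∏ p ∈ T, p ≤ W.natAbs := by
    have h4 : (∏ p ∈ T, p) ∣ ∏ p ∈ W.natAbs.primeFactors, p := Finset.prod_dvd_prod_of_subset _ _ _ h1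
    exact Nat.le_of_dvd (Int.natAbs_pos.2 hW) (h4.trans (Nat.prod_primeFactors_dvd _))
  exact (Nat.pow_le_pow_iff_right (by norm_num : 1 < 2)).1 ((h2.trans h3).trans h)

/-- the primes `p ≤ x` with `p ≡ ± 1 (mod e)` -/
theorem card_ap (x e : ℕ) (T : Finset ℕ)
    (hT : ∀ p ∈ T, p.Prime ∧ p ≤ x ∧ (e ∣ p - 1 ∨ e ∣ p + 1)) : T.card ≤ 2 * ((x + 1) / e) := by
  classical
  have h1 : T ⊆ (T.filter fun p => e ∣ p - 1) ∪ (T.filter fun p => e ∣ p + 1) := by
    intro p hp
    rw [mem_union, mem_filter, mem_filter]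
    rcases (hT p hp).2.2 with h | h
    · exact Or.inl ⟨hp, h⟩
    · exact Or.inr ⟨hp, h⟩
  have h2 : (T.filter fun p => e ∣ p - 1).card ≤ (x + 1) / e := by
    rw [← Nat.Ioc_filter_dvd_card_eq_div]
    apply Finset.card_le_card_of_injOn (fun p => p - 1)
    · intro p hp
      have hp' := Finset.mem_filter.1 (Finset.mem_coe.1 hp)
      have := (hT p hp'.1).1.two_le
      have := (hT p hp'.1).2.1
      rw [Finset.mem_coe, mem_filter, mem_Ioc]
      show (0 < p - 1 ∧ p - 1 ≤ x + 1) ∧ e ∣ p - 1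
      exact ⟨⟨by omega, by omega⟩, hp'.2⟩
    · intro a ha b hb hab
      have ha' := Finset.mem_filter.1 (Finset.mem_coe.1 ha)
      have hb' := Finset.mem_filter.1 (Finset.mem_coe.1 hb)
      have := (hT a ha'.1).1.two_le
      have := (hT b hb'.1).1.two_le
      have hab' : a - 1 = b - 1 := hab
      omega
  have h3 : (T.filter fun p => e ∣ p + 1).card ≤ (x + 1) / e := by
    rw [← Nat.Ioc_filter_dvd_card_eq_div]
    apply Finset.card_le_card_of_injOn (fun p => p + 1)
    · intro p hp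
      have hp' := Finset.mem_filter.1 (Finset.mem_coe.1 hp)
      have := (hT p hp'.1).2.1
      rw [Finset.mem_coe, mem_filter, mem_Ioc]
      show (0 < p + 1 ∧ p + 1 ≤ x + 1) ∧ e ∣ p + 1
      exact ⟨⟨by omega, by omega⟩, hp'.2⟩
    · intro a _ b _ hab
      have hab' : a + 1 = b + 1 := hab
      omega
  calc T.card ≤ _ := Finset.card_le_card h1
    _ ≤ _ := Finset.card_union_le _ _
    _ ≤ 2 * ((x + 1) / e) := by omega

/-- the counting argument -/
theorem count (d : ℕ) (u v : ℤ) (hw : ∀ e, 1 ≤ e → w u v e ≠ 0) (hd : u ^ 2 - 4 * v ^ 2 ≠ 0)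
    (P : ℕ → Prop) (hP : ∀ p, P p → p.Prime ∧ ((p : ℤ) ∣ u ^ 2 - 4 * v ^ 2 ∨
      ∃ e : ℕ, 1 ≤ e ∧ e.primeFactors ⊆ d.primeFactors ∧ (p : ℤ) ∣ w u v e ∧
        (e ∣ p - 1 ∨ e ∣ p + 1))) :
    ∃ A : ℕ, ∀ x : ℕ, ∀ T : Finset ℕ, (∀ p ∈ T, P p ∧ p ≤ x) →
      T.card ≤ A * ((Nat.log 2 (x + 1) + 1) ^ d.primeFactors.card * (Nat.sqrt x + 1)) := by
  classical
  set b := u.natAbs + v.natAbs ^ 2 + 1 with hb
  set D := (u ^ 2 - 4 * v ^ 2).natAbs with hD
  refine ⟨D + (b + 2), fun x T hT => ?_⟩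
  set r := Nat.sqrt x with hr
  have h1 : T ⊆ (T.filter fun p : ℕ => (p : ℤ) ∣ u ^ 2 - 4 * v ^ 2) ∪
      (Sm d (x + 1)).biUnion fun e => T.filter fun p : ℕ => (p : ℤ) ∣ w u v e ∧ (e ∣ p - 1 ∨ e ∣ p + 1) := by
    intro p hp
    rw [mem_union, mem_filter, mem_biUnion]
    obtain ⟨hpp, h | ⟨e, he1, he2, he3, he4⟩⟩ := hP p (hT p hp).1
    · exact Or.inl ⟨hp, h⟩
    · right
      have hpx := (hT p hp).2
      refine ⟨e, ?_, ?_⟩
      · rw [Sm, mem_filter, mem_Icc]
        refine ⟨⟨he1, ?_⟩, he2⟩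
        have := hpp.two_le
        rcases he4 with h | h
        · exact (Nat.le_of_dvd (by omega) h).trans (by omega)
        · exact (Nat.le_of_dvd (by omega) h).trans (by omega)
      · rw [mem_filter]
        exact ⟨hp, he3, he4⟩
  have h2 : (T.filter fun p : ℕ => (p : ℤ) ∣ u ^ 2 - 4 * v ^ 2).card ≤ D := by
    apply card_primes_dvd _ hd D Nat.lt_two_pow_self.le
    intro p hp
    rw [mem_filter] at hp
    exact ⟨(hP p (hT p hp.1).1).1, hp.2⟩
  have h3 : ∀ e ∈ Sm d (x + 1), (T.filter fun p : ℕ => (p : ℤ) ∣ w u v e ∧ (e ∣ p - 1 ∨ e ∣ p + 1)).card ≤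
      (b + 2) * (r + 1) := by
    intro e he
    rw [Sm, mem_filter, mem_Icc] at he
    by_cases her : e ≤ r
    · have h4 : (T.filter fun p : ℕ => (p : ℤ) ∣ w u v e ∧ (e ∣ p - 1 ∨ e ∣ p + 1)).card ≤ b * e := by
        apply card_primes_dvd _ (hw e he.1.1) (b * e)
        · refine (w_bound u v e).1.trans ?_
          rw [pow_mul]
          exact Nat.pow_le_pow_left Nat.lt_two_pow_self.le _
        · intro p hp
          rw [mem_filter] at hp
          exact ⟨(hP p (hT p hp.1).1).1, hp.2.1⟩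
      refine h4.trans ?_
      exact Nat.mul_le_mul (by omega) (by omega)
    · have h4 := card_ap x e (T.filter fun p : ℕ => (p : ℤ) ∣ w u v e ∧ (e ∣ p - 1 ∨ e ∣ p + 1)) (by
        intro p hp
        rw [mem_filter] at hp
        exact ⟨(hP p (hT p hp.1).1).1, (hT p hp.1).2, hp.2.2⟩)
      have h5 : (x + 1) / e ≤ r + 1 := by
        have h6 : x < (r + 1) * (r + 1) := Nat.lt_succ_sqrt x
        have h7 : (x + 1) / e ≤ (x + 1) / (r + 1) := Nat.div_le_div_left (by omega) (by omega)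
        refine h7.trans ?_
        apply Nat.div_le_of_le_mul
        exact h6
      calc _ ≤ 2 * ((x + 1) / e) := h4
        _ ≤ 2 * (r + 1) := Nat.mul_le_mul_left _ h5
        _ ≤ (b + 2) * (r + 1) := Nat.mul_le_mul_right _ (by omega)
  have h4 : ((Sm d (x + 1)).biUnion fun e => T.filter fun p : ℕ => (p : ℤ) ∣ w u v e ∧
      (e ∣ p - 1 ∨ e ∣ p + 1)).card ≤ (Nat.log 2 (x + 1) + 1) ^ d.primeFactors.card *
        ((b + 2) * (r + 1)) := by
    refine (Finset.card_biUnion_le_card_mul _ _ _ h3).trans ?_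
    exact Nat.mul_le_mul_right _ (card_Sm d (x + 1))
  set L := (Nat.log 2 (x + 1) + 1) ^ d.primeFactors.card with hL
  have hL1 : 1 ≤ L := Nat.one_le_pow _ _ (by omega)
  calc T.card ≤ _ := Finset.card_le_card h1
    _ ≤ _ := Finset.card_union_le _ _
    _ ≤ D + L * ((b + 2) * (r + 1)) := Nat.add_le_add h2 h4
    _ ≤ D * (L * (r + 1)) + L * ((b + 2) * (r + 1)) := by
        apply Nat.add_le_add_right
        exact Nat.le_mul_of_pos_right _ (Nat.mul_pos (by omega) (by omega))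
    _ = (D + (b + 2)) * (L * (r + 1)) := by ring

end Pool.Agent.TH191.CP
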