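import Mathlib
import Pool.Agent.TH191.CP.Count
import Pool.Agent.TH191.CP.Bin
import Pool.Agent.TH191.CP.Cnj
import Pool.Agent.H901R3.MS.P_SPQ

set_option autoImplicit false

namespace Pool.Agent.TH191.CP

open Polynomial Filter Topology

theorem finite_cut (A : Set ℕ) (x : ℕ) : (A ∩ Set.Icc 1 x).Finite :=
  (Set.finite_Icc 1 x).subset Set.inter_subset_right

/-- Chebyshev polynomials up to sign and conjugation -/
theorem cheb (d : ℕ) (hd : 2 ≤ d) (s : ℤ) (hs : s = 1 ∨ s = -1) (m t : ℚ) (hm : m ≠ 0) (a : ℚ)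
    (h0 : a ≠ 0) (h1 : a ≠ 1) (h1' : a ≠ -1) (h2 : a ≠ 2) (h2' : a ≠ -2) :
    ∃ C : ℝ, ∀ x : ℕ, 2 ≤ x →
      ((S (conj m t (Polynomial.C (s : ℚ) * Chebyshev.C ℚ d)) (m * a + t) ∩ Set.Icc 1 x).ncard : ℝ) ≤
        C * (√x * (Real.log x) ^ d.primeFactors.card) := by
  classical
  set u := a.num with hu
  set v := (a.den : ℤ) with hv
  have huv : IsCoprime u v := by
    have := a.isCoprime_num_den
    exact this
  have hvpos : 1 ≤ v := by
    have := a.den_pos
    omega
  have hcase : 2 ≤ v ∨ (v = 1 ∧ 3 ≤ |u|) := by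
    by_cases hv1 : v = 1
    · right
      refine ⟨hv1, ?_⟩
      have hden : a.den = 1 := by omega
      have hau : (a : ℚ) = (u : ℚ) := (Rat.coe_int_num_of_den_eq_one hden).symm
      by_contra hlt
      push Not at hlt
      have h3 : -2 ≤ u ∧ u ≤ 2 := by
        have := abs_lt.1 hlt
        omega
      have : u = 0 ∨ u = 1 ∨ u = -1 ∨ u = 2 ∨ u = -2 := by omega
      rcases this with h | h | h | h | h <;> rw [h] at hau
      · exact h0 (by simpa using hau)
      · exact h1 (by simpa using hau)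
      · exact h1' (by simpa using hau)
      · exact h2 (by simpa using hau)
      · exact h2' (by simpa using hau)
    · left; omega
  have hw := fun e he => w_ne u v huv hcase e he
  have hdisc : u ^ 2 - 4 * v ^ 2 ≠ 0 := by
    intro h
    have h3 : (u - 2 * v) * (u + 2 * v) = 0 := by linear_combination h
    have hvq : (v : ℚ) ≠ 0 := by exact_mod_cast (by omega : v ≠ 0)
    have hau : a * v = u := by
      have := Rat.mul_den_eq_num a
      rw [hv, hu]
      push_cast
      exact this
    rcases mul_eq_zero.1 h3 with h4 | h4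
    · apply h2
      have h5 : (u : ℚ) = 2 * v := by exact_mod_cast (by omega : u = 2 * v)
      rw [h5] at hau
      exact mul_right_cancel₀ hvq hau
    · apply h2'
      have h5 : (u : ℚ) = -2 * v := by exact_mod_cast (by omega : u = -2 * v)
      rw [h5] at hau
      exact mul_right_cancel₀ hvq hau
  set g : ℚ[X] := Polynomial.C (s : ℚ) * Chebyshev.C ℚ d with hg
  obtain ⟨A, hA⟩ := count d u v hw hdisc (fun p => p ∈ S g a) (fun p hp => core d hd s hs a p hp)
  -- the exceptional primes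
  set W : ℤ := m.num * t.den * a.den with hW
  have hW0 : W ≠ 0 := by
    rw [hW]
    have e1 : m.num ≠ 0 := Rat.num_ne_zero.2 hm
    have e2 : (t.den : ℤ) ≠ 0 := by exact_mod_cast t.den_pos.ne'
    have e3 : (a.den : ℤ) ≠ 0 := by exact_mod_cast a.den_pos.ne'
    exact mul_ne_zero (mul_ne_zero e1 e2) e3
  have hcoef : ∀ i, (g.coeff i).den = 1 := by
    intro i
    have e1 : g = (Polynomial.C s * Chebyshev.C ℤ d).map (Int.castRingHom ℚ) := by
      rw [Polynomial.map_mul, Chebyshev.map_C, map_C]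
      simp [hg]
    rw [e1, coeff_map, eq_intCast]
    exact Rat.den_intCast _
  set L := d.primeFactors.card with hL
  have hkey : ∀ x : ℕ, (S (conj m t g) (m * a + t) ∩ Set.Icc 1 x).ncard ≤
      A * ((Nat.log 2 (x + 1) + 1) ^ L * (Nat.sqrt x + 1)) + W.natAbs := by
    intro x
    set B := (finite_cut (S (conj m t g) (m * a + t)) x).toFinset with hB
    have e1 : (S (conj m t g) (m * a + t) ∩ Set.Icc 1 x).ncard = B.card :=
      Set.ncard_eq_toFinset_card _ _
    rw [e1]
    have hBm : ∀ p ∈ B, p ∈ S (conj m t g) (m * a + t) ∧ 1 ≤ p ∧ p ≤ x := by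
      intro p hp
      have := (Set.Finite.mem_toFinset _).1 hp
      exact ⟨this.1, this.2.1, this.2.2⟩
    have hsub : B ⊆ (B.filter fun p => p ∈ S g a) ∪ (B.filter fun p : ℕ => (p : ℤ) ∣ W) := by
      intro p hp
      rw [Finset.mem_union, Finset.mem_filter, Finset.mem_filter]
      by_cases hpW : (p : ℤ) ∣ W
      · exact Or.inr ⟨hp, hpW⟩
      · left
        refine ⟨hp, S_conj m t hm g a p (hBm p hp).1 ?_ ?_ ?_ ?_⟩
        · intro h
          exact hpW ((h.mul_right _).mul_right _)
        · intro h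
          have h' : (p : ℤ) ∣ t.den := by exact_mod_cast h
          exact hpW ((h'.mul_left _).mul_right _)
        · intro h
          have h' : (p : ℤ) ∣ a.den := by exact_mod_cast h
          exact hpW (h'.mul_left _)
        · intro i h
          rw [hcoef i] at h
          exact (hBm p hp).1.1.one_lt.ne' (Nat.dvd_one.1 h)
    calc B.card ≤ _ := Finset.card_le_card hsub
      _ ≤ _ := Finset.card_union_le _ _
      _ ≤ A * ((Nat.log 2 (x + 1) + 1) ^ L * (Nat.sqrt x + 1)) + W.natAbs := by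
        apply Nat.add_le_add
        · apply hA x
          intro p hp
          rw [Finset.mem_filter] at hp
          exact ⟨hp.2, (hBm p hp.1).2.2⟩
        · apply card_primes_dvd W hW0 _ Nat.lt_two_pow_self.le
          intro p hp
          rw [Finset.mem_filter] at hp
          exact ⟨(hBm p hp.1).1.1, hp.2⟩
  refine ⟨A * (8 ^ L * 2) + W.natAbs * 2 ^ L, fun x hx => ?_⟩
  have hxR : (2 : ℝ) ≤ x := by exact_mod_cast hx
  have hl2 : (1 / 2 : ℝ) < Real.log 2 := by
    have := Real.log_two_gt_d9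
    linarith
  have hlx : (1 / 2 : ℝ) < Real.log x := hl2.trans_le (Real.log_le_log (by norm_num) hxR)
  have h3 : ((Nat.log 2 (x + 1) + 1 : ℕ) : ℝ) ≤ 8 * Real.log x := by
    have e1 : ((Nat.log 2 (x + 1) : ℕ) : ℝ) * Real.log 2 ≤ Real.log ((x + 1 : ℕ) : ℝ) := by
      rw [← Real.log_pow]
      apply Real.log_le_log (by positivity)
      exact_mod_cast Nat.pow_log_le_self 2 (by omega)
    have e2 : Real.log ((x + 1 : ℕ) : ℝ) ≤ 2 * Real.log x := by
      rw [show (2 : ℝ) * Real.log x = Real.log ((x : ℝ) ^ 2) by rw [Real.log_pow]; norm_num]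
      apply Real.log_le_log (by positivity)
      push_cast
      nlinarith
    have e3 : ((Nat.log 2 (x + 1) : ℕ) : ℝ) * (1 / 2) ≤ ((Nat.log 2 (x + 1) : ℕ) : ℝ) * Real.log 2 :=
      mul_le_mul_of_nonneg_left hl2.le (Nat.cast_nonneg _)
    push_cast
    linarith
  have h4 : ((Nat.sqrt x + 1 : ℕ) : ℝ) ≤ 2 * √x := by
    have e1 : ((Nat.sqrt x : ℕ) : ℝ) ≤ √x := Real.nat_sqrt_le_real_sqrt
    have e2 : (1 : ℝ) ≤ √x := by
      rw [show (1 : ℝ) = √1 by simp]
      exact Real.sqrt_le_sqrt (by linarith)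
    push_cast
    linarith
  have hs1 : (1 : ℝ) ≤ √x := by
    rw [show (1 : ℝ) = √1 by simp]
    exact Real.sqrt_le_sqrt (by linarith)
  have h5 : (((Nat.log 2 (x + 1) + 1) ^ L * (Nat.sqrt x + 1) : ℕ) : ℝ) ≤
      (8 ^ L * 2) * (√x * Real.log x ^ L) := by
    rw [Nat.cast_mul, Nat.cast_pow]
    calc ((Nat.log 2 (x + 1) + 1 : ℕ) : ℝ) ^ L * ((Nat.sqrt x + 1 : ℕ) : ℝ) ≤
          (8 * Real.log x) ^ L * (2 * √x) :=
        mul_le_mul (pow_le_pow_left₀ (Nat.cast_nonneg _) h3 _) h4 (Nat.cast_nonneg _) (by positivity)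
      _ = _ := by rw [mul_pow]; ring
  have h6 : (1 : ℝ) ≤ 2 ^ L * (√x * Real.log x ^ L) := by
    have e1 : (1 : ℝ) ≤ (2 * Real.log x) ^ L := one_le_pow₀ (by linarith)
    calc (1 : ℝ) = 1 * 1 := by ring
      _ ≤ √x * (2 * Real.log x) ^ L := mul_le_mul hs1 e1 (by norm_num) (by positivity)
      _ = _ := by rw [mul_pow]; ring
  have h7 := hkey x
  have h8 : ((S (conj m t g) (m * a + t) ∩ Set.Icc 1 x).ncard : ℝ) ≤
      (A : ℝ) * (((Nat.log 2 (x + 1) + 1) ^ L * (Nat.sqrt x + 1) : ℕ) : ℝ) + (W.natAbs : ℝ) := by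
    exact_mod_cast h7
  calc ((S (conj m t g) (m * a + t) ∩ Set.Icc 1 x).ncard : ℝ) ≤ _ := h8
    _ ≤ (A : ℝ) * ((8 ^ L * 2) * (√x * Real.log x ^ L)) + (W.natAbs : ℝ) * (2 ^ L * (√x * Real.log x ^ L)) :=
        add_le_add (mul_le_mul_of_nonneg_left h5 (Nat.cast_nonneg _))
          (le_mul_of_one_le_right (Nat.cast_nonneg _) h6)
    _ = _ := by ring

/-- the residues `c` modulo `d` with `c` and `c - 1` prime to `d` -/
def Res (d : ℕ) : Finset ℕ := (Finset.range d).filter fun c => c.Coprime d ∧ (c - 1).Coprime d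

/-- the residues `c` prime to `d` with `c - 1` not prime to `d` -/
def Bad (d : ℕ) : Finset ℕ := (Finset.range d).filter fun c => c.Coprime d ∧ ¬ (c - 1).Coprime d

theorem card_Bad (d : ℕ) : (Bad d).card + (Res d).card = d.totient := by
  rw [Nat.totient_eq_card_coprime, Bad, Res, ← Finset.card_union_of_disjoint]
  · congr 1
    ext c
    simp only [Finset.mem_union, Finset.mem_filter, Finset.mem_range]
    constructor
    · rintro (⟨h1, h2, -⟩ | ⟨h1, h2, -⟩) <;> exact ⟨h1, h2.symm⟩
    · rintro ⟨h1, h2⟩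
      by_cases h3 : (c - 1).Coprime d
      · exact Or.inr ⟨h1, h2.symm, h3⟩
      · exact Or.inl ⟨h1, h2.symm, h3⟩
  · rw [Finset.disjoint_left]
    intro c h1 h2
    exact (Finset.mem_filter.1 h1).2.2 (Finset.mem_filter.1 h2).2.2

/-- lower density of the primes of `S` for a unicritical polynomial -/
theorem lowd (l : ℕ) (hl : 2 ≤ l) (b a t α : ℚ) (hb : b ≠ 0) (j k : ℕ)
    (hjk : (fun x : ℚ => b * (x - t) ^ l + a)^[j] α = (fun x : ℚ => b * (x - t) ^ l + a)^[k] t)
    (ε : ℝ) (hε : 0 < ε) :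
    ∀ᶠ x : ℕ in atTop, (((Res l).card : ℝ) / (l.totient : ℝ) - ε) * (Nat.primeCounting x : ℝ) ≤
      ((S (Polynomial.C b * (X - Polynomial.C t) ^ l + Polynomial.C a) α ∩ Set.Icc 1 x).ncard : ℝ) := by
  classical
  have hφ : (0 : ℝ) < (l.totient : ℝ) := by exact_mod_cast Nat.totient_pos.2 (by omega)
  have hC0 : ∀ c : ℕ, ∃ C : ℝ, c.Coprime l → ∀ y : ℕ, 3 ≤ y →
      (((Finset.Icc 1 y).filter (fun p : ℕ => p.Prime ∧ p % l = c % l)).card : ℝ) ≤
      (1 / (Nat.totient l : ℝ)) * (Nat.primeCounting y : ℝ) + C * (y / (Real.log y) ^ 3) := by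
    intro c
    by_cases hc : c.Coprime l
    · obtain ⟨C, hC⟩ := Pool.Agent.H901R3.MS.t_SPQ l c (by omega) hc
      exact ⟨C, fun _ => hC⟩
    · exact ⟨0, fun h => absurd h hc⟩
  choose Cc hCc using hC0
  set C : ℝ := ∑ c ∈ Bad l, Cc c with hCdef
  set D : ℕ := b.num.natAbs * b.den * a.den * t.den * α.den * l with hD
  have hD0 : D ≠ 0 := mul_ne_zero (mul_ne_zero (mul_ne_zero (mul_ne_zero (mul_ne_zero
    (Int.natAbs_ne_zero.2 (Rat.num_ne_zero.2 hb)) b.den_pos.ne') a.den_pos.ne') t.den_pos.ne')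
    α.den_pos.ne') (by omega)
  -- counting
  have hcount : ∀ x : ℕ, 3 ≤ x → ((Res l).card : ℝ) / (l.totient : ℝ) * (Nat.primeCounting x : ℝ) -
      C * (x / (Real.log x) ^ 3) - D ≤
        ((S (Polynomial.C b * (X - Polynomial.C t) ^ l + Polynomial.C a) α ∩ Set.Icc 1 x).ncard : ℝ) := by
    intro x hx
    set P : Finset ℕ := (Finset.Icc 1 x).filter Nat.Prime with hP
    have hPc : P.card = Nat.primeCounting x := by
      rw [Nat.primeCounting, Nat.primeCounting', Nat.count_eq_card_filter_range]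
      congr 1
      ext p
      simp only [hP, Finset.mem_filter, Finset.mem_Icc, Finset.mem_range]
      constructor
      · rintro ⟨⟨h1, h2⟩, h3⟩
        exact ⟨by omega, h3⟩
      · rintro ⟨h1, h3⟩
        exact ⟨⟨h3.one_le, by omega⟩, h3⟩
    set B := (finite_cut (S (Polynomial.C b * (X - Polynomial.C t) ^ l + Polynomial.C a) α) x).toFinset
      with hB
    have e1 : (S (Polynomial.C b * (X - Polynomial.C t) ^ l + Polynomial.C a) α ∩ Set.Icc 1 x).ncard =
        B.card := Set.ncard_eq_toFinset_card _ _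
    have hsub : P ⊆ (B ∪ (Bad l).biUnion fun c =>
        (Finset.Icc 1 x).filter (fun p : ℕ => p.Prime ∧ p % l = c % l)) ∪ D.primeFactors := by
      intro p hp
      rw [hP, Finset.mem_filter, Finset.mem_Icc] at hp
      rw [Finset.mem_union, Finset.mem_union, Finset.mem_biUnion]
      by_cases hpD : p ∣ D
      · exact Or.inr (Nat.mem_primeFactors.2 ⟨hp.2, hpD, hD0⟩)
      · left
        have hpl : ¬ p ∣ l := fun h => hpD (h.mul_left _)
        have hcop : p.Coprime l := (Nat.Prime.coprime_iff_not_dvd hp.2).2 hpl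
        by_cases hco : Nat.Coprime l (p - 1)
        · left
          rw [hB, Set.Finite.mem_toFinset]
          refine ⟨?_, hp.1.1, hp.1.2⟩
          apply binom l hl b a t α j k hjk p hp.2 hco
          · intro h
            exact hpD ((((((Int.natCast_dvd.1 h).mul_right _).mul_right _).mul_right _).mul_right _).mul_right _)
          · intro h
            exact hpD (((((h.mul_left _).mul_right _).mul_right _).mul_right _).mul_right _)
          · intro h
            exact hpD ((((h.mul_left _).mul_right _).mul_right _).mul_right _)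
          · intro h
            exact hpD (((h.mul_left _).mul_right _).mul_right _)
          · intro h
            exact hpD ((h.mul_left _).mul_right _)
        · right
          refine ⟨p % l, ?_, ?_⟩
          · have hc1 : (p % l).Coprime l := by
              rw [Nat.coprime_iff_gcd_eq_one, (Nat.mod_modEq p l).gcd_eq]
              exact hcop
            have hpos : 1 ≤ p % l := by
              rcases Nat.eq_zero_or_pos (p % l) with h | h
              · rw [h, Nat.coprime_zero_left] at hc1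
                omega
              · exact h
            rw [Bad, Finset.mem_filter, Finset.mem_range]
            refine ⟨Nat.mod_lt _ (by omega), hc1, ?_⟩
            intro h
            apply hco
            have h2 : p - 1 ≡ p % l - 1 [MOD l] := by
              have h3 : p - 1 = (p % l - 1) + l * (p / l) := by
                have := Nat.mod_add_div p l
                omega
              rw [h3]
              exact (Nat.add_mul_mod_self_left _ _ _)
            rw [Nat.coprime_comm, Nat.coprime_iff_gcd_eq_one, h2.gcd_eq]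
            exact h
          · rw [Finset.mem_filter, Finset.mem_Icc]
            exact ⟨hp.1, hp.2, (Nat.mod_mod p l).symm⟩
    have h2 : P.card ≤ (B.card + ∑ c ∈ Bad l, ((Finset.Icc 1 x).filter
        (fun p : ℕ => p.Prime ∧ p % l = c % l)).card) + D := by
      refine (Finset.card_le_card hsub).trans ((Finset.card_union_le _ _).trans ?_)
      apply Nat.add_le_add
      · refine (Finset.card_union_le _ _).trans (Nat.add_le_add le_rfl Finset.card_biUnion_le)
      refine card_primes_dvd (D : ℤ) (by exact_mod_cast hD0) D ?_ D.primeFactors ?_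
      · rw [Int.natAbs_natCast]
        exact Nat.lt_two_pow_self.le
      · intro p hp
        exact ⟨Nat.prime_of_mem_primeFactors hp, by exact_mod_cast Nat.dvd_of_mem_primeFactors hp⟩
    have h3 : (P.card : ℝ) ≤ (B.card : ℝ) + ∑ c ∈ Bad l, (((Finset.Icc 1 x).filter
        (fun p : ℕ => p.Prime ∧ p % l = c % l)).card : ℝ) + (D : ℝ) := by exact_mod_cast h2
    have h5 : ∑ c ∈ Bad l, (((Finset.Icc 1 x).filter
        (fun p : ℕ => p.Prime ∧ p % l = c % l)).card : ℝ) ≤
        ((Bad l).card : ℝ) * ((1 / (Nat.totient l : ℝ)) * (Nat.primeCounting x : ℝ)) +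
          C * (x / (Real.log x) ^ 3) := by
      refine (Finset.sum_le_sum fun c hc => hCc c (Finset.mem_filter.1 hc).2.1 x hx).trans ?_
      rw [Finset.sum_add_distrib, Finset.sum_const, nsmul_eq_mul, ← Finset.sum_mul]
    rw [hPc] at h3
    rw [e1]
    have h6 : ((Bad l).card : ℝ) + ((Res l).card : ℝ) = (l.totient : ℝ) := by
      exact_mod_cast card_Bad l
    have h4 : ((Res l).card : ℝ) / (l.totient : ℝ) * (Nat.primeCounting x : ℝ) =
        (Nat.primeCounting x : ℝ) -
          ((Bad l).card : ℝ) * ((1 / (Nat.totient l : ℝ)) * (Nat.primeCounting x : ℝ)) := by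
      have : ((Res l).card : ℝ) = (l.totient : ℝ) - ((Bad l).card : ℝ) := by linarith
      rw [this]
      field_simp
    rw [h4]
    linarith
  -- the error terms
  have hlog : Tendsto (fun x : ℕ => Real.log (x : ℝ)) atTop atTop :=
    Real.tendsto_log_atTop.comp tendsto_natCast_atTop_atTop
  have hlx : Tendsto (fun x : ℕ => Real.log (x : ℝ) / (x : ℝ)) atTop (𝓝 0) :=
    (Real.isLittleO_log_id_atTop.tendsto_div_nhds_zero).comp tendsto_natCast_atTop_atTop
  have hinv : Tendsto (fun x : ℕ => (Real.log (x : ℝ))⁻¹) atTop (𝓝 0) := hlog.inv_tendsto_atTop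
  set δ : ℝ := ε / (8 * (|C| + D + 1)) with hδ
  have hden : (0 : ℝ) < 8 * (|C| + D + 1) := by positivity
  have hδ0 : 0 < δ := by positivity
  filter_upwards [eventually_ge_atTop 3, hlog.eventually_ge_atTop 2,
    hinv.eventually_lt_const hδ0, hlx.eventually_lt_const hδ0,
    hlx.eventually_lt_const (by norm_num : (0 : ℝ) < 1 / 20)] with x hx h1 h2 h3 h3'
  have hxR : (3 : ℝ) ≤ x := by exact_mod_cast hx
  have hx0 : (0 : ℝ) < x := by linarith
  have hL0 : (0 : ℝ) < Real.log x := by linarith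
  -- `π(x) ≥ x / (4 log x)`
  have hpi : (x : ℝ) / (4 * Real.log x) ≤ (Nat.primeCounting x : ℝ) := by
    have h4 := Chebyshev.pi_ge x
    refine le_trans ?_ h4
    rw [div_le_div_iff₀ (by positivity) hL0]
    have h5 : Real.log ((x : ℝ) + 1) ≤ 2 * Real.log x := by
      rw [show (2 : ℝ) * Real.log x = Real.log ((x : ℝ) ^ 2) by rw [Real.log_pow]; norm_num]
      apply Real.log_le_log (by positivity)
      nlinarith
    have h6 : Real.log x ≤ x / 20 := by
      rw [div_lt_iff₀ hx0] at h3'
      linarith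
    have h7 : (0.69 : ℝ) < Real.log 2 := by
      have := Real.log_two_gt_d9
      linarith
    have h8 : (x : ℝ) / 4 ≤ x * Real.log 2 - Real.log (x + 1) := by
      have : (x : ℝ) * 0.69 ≤ x * Real.log 2 := mul_le_mul_of_nonneg_left h7.le hx0.le
      linarith
    calc (x : ℝ) * Real.log x = (x / 4) * (4 * Real.log x) := by ring
      _ ≤ (x * Real.log 2 - Real.log (x + 1)) * (4 * Real.log x) :=
        mul_le_mul_of_nonneg_right h8 (by positivity)
  have hy0 : 0 < (x : ℝ) / Real.log x := by positivity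
  have hpi' : (x : ℝ) / Real.log x ≤ 4 * (Nat.primeCounting x : ℝ) := by
    have : (x : ℝ) / Real.log x = 4 * (x / (4 * Real.log x)) := by field_simp
    rw [this]
    linarith
  have hE1 : C * ((x : ℝ) / Real.log x ^ 3) ≤ |C| * δ * (x / Real.log x) := by
    have h4 : (x : ℝ) / Real.log x ^ 3 ≤ δ * (x / Real.log x) := by
      have e1 : (x : ℝ) / Real.log x ^ 3 = (Real.log x)⁻¹ * (Real.log x)⁻¹ * (x / Real.log x) := by
        field_simp
      rw [e1]
      apply mul_le_mul_of_nonneg_right _ hy0.le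
      have e2 : (Real.log x)⁻¹ ≤ 1 := inv_le_one_of_one_le₀ (by linarith)
      have e3 : 0 ≤ (Real.log x)⁻¹ := by positivity
      nlinarith
    calc C * ((x : ℝ) / Real.log x ^ 3) ≤ |C| * ((x : ℝ) / Real.log x ^ 3) :=
          mul_le_mul_of_nonneg_right (le_abs_self C) (by positivity)
      _ ≤ |C| * (δ * (x / Real.log x)) := mul_le_mul_of_nonneg_left h4 (abs_nonneg _)
      _ = _ := by ring
  have hE2 : (D : ℝ) ≤ D * δ * (x / Real.log x) := by
    have e1 : 1 ≤ δ * (x / Real.log x) := by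
      have : Real.log x / x < δ := h3
      rw [div_lt_iff₀ hx0] at this
      rw [mul_div_assoc', le_div_iff₀ hL0]
      linarith
    calc (D : ℝ) = D * 1 := by ring
      _ ≤ D * (δ * (x / Real.log x)) := mul_le_mul_of_nonneg_left e1 (Nat.cast_nonneg _)
      _ = _ := by ring
  have hE : C * ((x : ℝ) / Real.log x ^ 3) + D ≤ ε * (Nat.primeCounting x : ℝ) := by
    have e1 : (|C| + D) * δ ≤ ε / 8 := by
      rw [hδ, mul_div_assoc', div_le_div_iff₀ hden (by norm_num)]
      nlinarith [abs_nonneg C, hε, (Nat.cast_nonneg D : (0 : ℝ) ≤ D)]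
    calc C * ((x : ℝ) / Real.log x ^ 3) + D ≤ |C| * δ * (x / Real.log x) + D * δ * (x / Real.log x) :=
          add_le_add hE1 hE2
      _ = ((|C| + D) * δ) * (x / Real.log x) := by ring
      _ ≤ (ε / 8) * (4 * (Nat.primeCounting x : ℝ)) :=
          mul_le_mul e1 hpi' hy0.le (by positivity)
      _ ≤ ε * (Nat.primeCounting x : ℝ) := by
          have : (0 : ℝ) ≤ (Nat.primeCounting x : ℝ) := Nat.cast_nonneg _
          nlinarith
  have h9 := hcount x hx
  have h10 : (((Res l).card : ℝ) / (l.totient : ℝ) - ε) * (Nat.primeCounting x : ℝ) =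
      ((Res l).card : ℝ) / (l.totient : ℝ) * (Nat.primeCounting x : ℝ) -
        ε * (Nat.primeCounting x : ℝ) := by ring
  rw [h10]
  linarith

/-- the bound `C √x (log x)^L` gives density zero -/
theorem dens0 (A : Set ℕ) (L : ℕ) (C : ℝ)
    (hC : ∀ x : ℕ, 2 ≤ x → ((A ∩ Set.Icc 1 x).ncard : ℝ) ≤ C * (√x * (Real.log x) ^ L)) :
    Tendsto (fun x : ℕ => ((A ∩ Set.Icc 1 x).ncard : ℝ) / (Nat.primeCounting x : ℝ)) atTop (𝓝 0) := by
  have h1 : Tendsto (fun x : ℝ => Real.log x ^ ((L + 1 : ℕ) : ℝ) / x ^ (1 / 2 : ℝ)) atTop (𝓝 0) :=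
    (isLittleO_log_rpow_rpow_atTop ((L + 1 : ℕ) : ℝ) (by norm_num : (0 : ℝ) < 1 / 2)).tendsto_div_nhds_zero
  have h2 : Tendsto (fun x : ℕ => 4 * |C| * (Real.log x ^ ((L + 1 : ℕ) : ℝ) / (x : ℝ) ^ (1 / 2 : ℝ)))
      atTop (𝓝 0) := by
    have := (h1.comp tendsto_natCast_atTop_atTop).const_mul (4 * |C|)
    simpa using this
  have hlog : Tendsto (fun x : ℕ => Real.log (x : ℝ)) atTop atTop :=
    Real.tendsto_log_atTop.comp tendsto_natCast_atTop_atTop
  have hlx : Tendsto (fun x : ℕ => Real.log (x : ℝ) / (x : ℝ)) atTop (𝓝 0) :=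
    (Real.isLittleO_log_id_atTop.tendsto_div_nhds_zero).comp tendsto_natCast_atTop_atTop
  refine squeeze_zero' (Eventually.of_forall fun x => by positivity) ?_ h2
  filter_upwards [eventually_ge_atTop 3, hlog.eventually_ge_atTop 2,
    hlx.eventually_lt_const (by norm_num : (0 : ℝ) < 1 / 20)] with x hx h1 h3'
  have hxR : (3 : ℝ) ≤ x := by exact_mod_cast hx
  have hx0 : (0 : ℝ) < x := by linarith
  have hL0 : (0 : ℝ) < Real.log x := by linarith
  have hpi : (x : ℝ) / (4 * Real.log x) ≤ (Nat.primeCounting x : ℝ) := by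
    have h4 := Chebyshev.pi_ge x
    refine le_trans ?_ h4
    rw [div_le_div_iff₀ (by positivity) hL0]
    have h5 : Real.log ((x : ℝ) + 1) ≤ 2 * Real.log x := by
      rw [show (2 : ℝ) * Real.log x = Real.log ((x : ℝ) ^ 2) by rw [Real.log_pow]; norm_num]
      apply Real.log_le_log (by positivity)
      nlinarith
    have h6 : Real.log x ≤ x / 20 := by
      rw [div_lt_iff₀ hx0] at h3'
      linarith
    have h7 : (0.69 : ℝ) < Real.log 2 := by
      have := Real.log_two_gt_d9
      linarith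
    have h8 : (x : ℝ) / 4 ≤ x * Real.log 2 - Real.log (x + 1) := by
      have : (x : ℝ) * 0.69 ≤ x * Real.log 2 := mul_le_mul_of_nonneg_left h7.le hx0.le
      linarith
    calc (x : ℝ) * Real.log x = (x / 4) * (4 * Real.log x) := by ring
      _ ≤ (x * Real.log 2 - Real.log (x + 1)) * (4 * Real.log x) :=
        mul_le_mul_of_nonneg_right h8 (by positivity)
  have hy : 0 < (x : ℝ) / (4 * Real.log x) := by positivity
  have hpi0 : (0 : ℝ) < (Nat.primeCounting x : ℝ) := hy.trans_le hpi
  rw [div_le_iff₀ hpi0]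
  have hb := hC x (by omega)
  have hs : √(x : ℝ) * √(x : ℝ) = x := Real.mul_self_sqrt hx0.le
  have hs0 : 0 < √(x : ℝ) := Real.sqrt_pos.2 hx0
  calc ((A ∩ Set.Icc 1 x).ncard : ℝ) ≤ C * (√x * (Real.log x) ^ L) := hb
    _ ≤ |C| * (√x * (Real.log x) ^ L) := mul_le_mul_of_nonneg_right (le_abs_self C) (by positivity)
    _ = 4 * |C| * (Real.log x ^ ((L + 1 : ℕ) : ℝ) / (x : ℝ) ^ (1 / 2 : ℝ)) *
          ((x : ℝ) / (4 * Real.log x)) := by
        rw [Real.rpow_natCast, ← Real.sqrt_eq_rpow, pow_succ]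
        have e : √(x : ℝ) = (x : ℝ) / √(x : ℝ) := by
          rw [eq_div_iff hs0.ne', hs]
        have e2 : |C| * (√(x : ℝ) * Real.log x ^ L) = |C| * ((x : ℝ) / √(x : ℝ) * Real.log x ^ L) := by
          rw [← e]
        rw [e2]
        field_simp
    _ ≤ _ := mul_le_mul_of_nonneg_left hpi (by positivity)

end Pool.Agent.TH191.CP
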