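import Mathlib
import Pool.Agent.TH191.CP.Asy

set_option autoImplicit false

namespace Pool.Agent.TH191.CP

open Polynomial Filter Topology

theorem num_of_nonunit (V : ValuationSubring Kb) (p : ℕ) (hp : p.Prime)
    (hpV : (p : Kb) ∈ V.nonunits) (r : ℚ) (hr : algebraMap ℚ Kb r ∈ V.nonunits) :
    (p : ℤ) ∣ r.num := by
  by_contra h
  have h1 : V.valuation ((r.num : ℤ) : Kb) = 1 :=
    unit_of_not_dvd V p hpV _ ((Int.prime_iff_natAbs_prime.2 (by simpa using hp)).coprime_iff_not_dvd.2 h)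
  have h2 : ((r.den : ℤ) : ℚ) * r = ((r.num : ℤ) : ℚ) := by
    have := Rat.mul_den_eq_num r
    push_cast
    linarith
  have h3 := congrArg (algebraMap ℚ Kb) h2
  rw [map_mul, map_intCast, map_intCast] at h3
  rw [← h3, map_mul] at h1
  have h4 : V.valuation ((r.den : ℤ) : Kb) ≤ 1 := (V.valuation_le_one_iff _).2 (intCast_mem V _)
  have h5 := (ValuationSubring.mem_nonunits_iff V).1 hr
  have h6 : V.valuation ((r.den : ℤ) : Kb) * V.valuation (algebraMap ℚ Kb r) < 1 :=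
    (mul_le_mul' h4 le_rfl).trans_lt (by rw [one_mul]; exact h5)
  exact h6.ne h1

theorem mem_of_den (V : ValuationSubring Kb) (p : ℕ) (hp : p.Prime)
    (hpV : (p : Kb) ∈ V.nonunits) (r : ℚ) (hr : ¬ p ∣ r.den) : algebraMap ℚ Kb r ∈ V := by
  have h1 : ((r.den : ℤ) : ℚ) * r = ((r.num : ℤ) : ℚ) := by
    have := Rat.mul_den_eq_num r
    push_cast
    linarith
  have h2 := congrArg (algebraMap ℚ Kb) h1
  rw [map_mul, map_intCast, map_intCast] at h2
  have h3 : V.valuation ((r.den : ℤ) : Kb) = 1 :=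
    unit_of_not_dvd V p hpV _ ((Int.prime_iff_natAbs_prime.2 (by simpa using hp)).coprime_iff_not_dvd.2
      (by exact_mod_cast hr))
  rw [← V.valuation_le_one_iff]
  have h1 : V.valuation (((r.den : ℤ) : Kb) * algebraMap ℚ Kb r) ≤ 1 := by
    rw [h2]
    exact (V.valuation_le_one_iff _).2 (intCast_mem V _)
  rwa [map_mul, h3, one_mul] at h1

/-- a prime of `S` divides the numerator of some `f'(f^n(α))` -/
theorem S_dvd (f : ℚ[X]) (α : ℚ) (p : ℕ) (hp : p ∈ S f α) :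
    ∃ n : ℕ, (p : ℤ) ∣ ((derivative f).eval ((fun x => f.eval x)^[n] α)).num := by
  obtain ⟨hpp, hf, -, n, c, hc, V, hpV, hcV, hdiff⟩ := hp
  refine ⟨n, ?_⟩
  set x : ℚ := (fun x => f.eval x)^[n] α with hx
  apply num_of_nonunit V p hpp hpV
  have hxV : algebraMap ℚ Kb x ∈ V := by
    have h1 : algebraMap ℚ Kb x - c ∈ V := V.nonunits_le hdiff
    have h2 := add_mem h1 hcV
    rwa [sub_add_cancel] at h2
  have hco : ∀ i, ((derivative f).map (algebraMap ℚ Kb)).coeff i ∈ V.toSubring := by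
    intro i
    rw [coeff_map, coeff_derivative, map_mul]
    apply mul_mem
    · exact mem_of_den V p hpp hpV _ (hf _)
    · have : algebraMap ℚ Kb ((i : ℚ) + 1) = ((i + 1 : ℕ) : Kb) := by push_cast; simp
      rw [this]
      exact natCast_mem V _
  obtain ⟨P, hP⟩ : ∃ P : V.toSubring[X], P.map V.toSubring.subtype = (derivative f).map (algebraMap ℚ Kb) := by
    have := (Polynomial.mem_lifts (f := V.toSubring.subtype) ((derivative f).map (algebraMap ℚ Kb))).1 (by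
      rw [Polynomial.lifts_iff_coeff_lifts]
      intro i
      exact ⟨⟨_, hco i⟩, rfl⟩)
    exact this
  have hPe : ∀ y : V.toSubring, ((P.eval y : V.toSubring) : Kb) =
      ((derivative f).map (algebraMap ℚ Kb)).eval (y : Kb) := by
    intro y
    rw [← hP, eval_map]
    exact (eval₂_hom V.toSubring.subtype y).symm
  have hd := sub_dvd_eval_sub (⟨algebraMap ℚ Kb x, hxV⟩ : V.toSubring) ⟨c, hcV⟩ P
  obtain ⟨q, hq⟩ := hd
  have hq' := congrArg (Subtype.val) hq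
  have h3 : ((derivative f).map (algebraMap ℚ Kb)).eval (algebraMap ℚ Kb x) -
      ((derivative f).map (algebraMap ℚ Kb)).eval c = (algebraMap ℚ Kb x - c) * (q : Kb) := by
    rw [← hPe ⟨algebraMap ℚ Kb x, hxV⟩, ← hPe ⟨c, hcV⟩]
    exact hq'
  have h4 : ((derivative f).map (algebraMap ℚ Kb)).eval c = 0 := by
    rw [eval_map, ← aeval_def]
    exact hc
  have h5 : ((derivative f).map (algebraMap ℚ Kb)).eval (algebraMap ℚ Kb x) =
      algebraMap ℚ Kb ((derivative f).eval x) := by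
    rw [eval_map, eval₂_hom]
  rw [h4, h5, sub_zero] at h3
  rw [h3, ValuationSubring.mem_nonunits_iff, map_mul]
  have h7 : V.valuation (q : Kb) ≤ 1 := (V.valuation_le_one_iff _).2 q.2
  have h8 := (ValuationSubring.mem_nonunits_iff V).1 hdiff
  exact (mul_le_mul' le_rfl h7).trans_lt (by rw [mul_one]; exact h8)

/-- finite orbits -/
theorem S_finite (f : ℚ[X]) (α : ℚ) (h : (Set.range fun n : ℕ => (fun x => f.eval x)^[n] α).Finite)
    (h0 : ∀ n : ℕ, (derivative f).eval ((fun x => f.eval x)^[n] α) ≠ 0) : (S f α).Finite := by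
  classical
  have h1 : (⋃ y ∈ (Set.range fun n : ℕ => (fun x => f.eval x)^[n] α),
      {p : ℕ | p ∈ ((derivative f).eval y).num.natAbs.primeFactors}).Finite :=
    h.biUnion fun y _ => by
      exact ((derivative f).eval y).num.natAbs.primeFactors.finite_toSet
  refine h1.subset fun p hp => ?_
  obtain ⟨n, hn⟩ := S_dvd f α p hp
  refine Set.mem_biUnion (Set.mem_range_self n) ?_
  show p ∈ Nat.primeFactors _
  rw [Nat.mem_primeFactors]
  refine ⟨hp.1, Int.natCast_dvd.1 hn, ?_⟩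
  rw [Int.natAbs_ne_zero, Rat.num_ne_zero]
  exact h0 n

/-- the values of `C_n` at `0, ±1, ±2` -/
theorem C_small (x : ℚ) (hx : x = 0 ∨ x = 1 ∨ x = -1 ∨ x = 2 ∨ x = -2) (n : ℕ) :
    (Chebyshev.C ℚ n).eval x = 0 ∨ (Chebyshev.C ℚ n).eval x = 1 ∨ (Chebyshev.C ℚ n).eval x = -1 ∨
      (Chebyshev.C ℚ n).eval x = 2 ∨ (Chebyshev.C ℚ n).eval x = -2 := by
  have step : ∀ m : ℕ, (Chebyshev.C ℚ ((m + 1 : ℕ) + 1 : ℤ)).eval x =
      x * (Chebyshev.C ℚ ((m : ℤ) + 1)).eval x - (Chebyshev.C ℚ (m : ℤ)).eval x := by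
    intro m
    have e : (((m + 1 : ℕ) : ℤ) + 1) = (m : ℤ) + 2 := by push_cast; ring
    rw [e, Chebyshev.C_add_two, eval_sub, eval_mul, eval_X]
  rcases hx with rfl | rfl | rfl | rfl | rfl
  · have h : ((Chebyshev.C ℚ n).eval 0 = 2 ∧ (Chebyshev.C ℚ ((n : ℤ) + 1)).eval 0 = 0) ∨
        ((Chebyshev.C ℚ n).eval 0 = 0 ∧ (Chebyshev.C ℚ ((n : ℤ) + 1)).eval 0 = -2) ∨
        ((Chebyshev.C ℚ n).eval 0 = -2 ∧ (Chebyshev.C ℚ ((n : ℤ) + 1)).eval 0 = 0) ∨
        ((Chebyshev.C ℚ n).eval 0 = 0 ∧ (Chebyshev.C ℚ ((n : ℤ) + 1)).eval (0 : ℚ) = 2) := by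
      induction n with
      | zero => left; simp
      | succ m ih =>
        rw [step m]
        have e : (Chebyshev.C ℚ ((m + 1 : ℕ) : ℤ)) = Chebyshev.C ℚ ((m : ℤ) + 1) := by push_cast; rfl
        rw [e]
        rcases ih with ⟨h1, h2⟩ | ⟨h1, h2⟩ | ⟨h1, h2⟩ | ⟨h1, h2⟩ <;> rw [h1, h2] <;> norm_num
    rcases h with ⟨h, -⟩ | ⟨h, -⟩ | ⟨h, -⟩ | ⟨h, -⟩ <;> simp [h]
  · have h : ((Chebyshev.C ℚ n).eval 1 = 2 ∧ (Chebyshev.C ℚ ((n : ℤ) + 1)).eval 1 = 1) ∨
        ((Chebyshev.C ℚ n).eval 1 = 1 ∧ (Chebyshev.C ℚ ((n : ℤ) + 1)).eval 1 = -1) ∨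
        ((Chebyshev.C ℚ n).eval 1 = -1 ∧ (Chebyshev.C ℚ ((n : ℤ) + 1)).eval 1 = -2) ∨
        ((Chebyshev.C ℚ n).eval 1 = -2 ∧ (Chebyshev.C ℚ ((n : ℤ) + 1)).eval 1 = -1) ∨
        ((Chebyshev.C ℚ n).eval 1 = -1 ∧ (Chebyshev.C ℚ ((n : ℤ) + 1)).eval 1 = 1) ∨
        ((Chebyshev.C ℚ n).eval 1 = 1 ∧ (Chebyshev.C ℚ ((n : ℤ) + 1)).eval (1 : ℚ) = 2) := by
      induction n with
      | zero => left; simp
      | succ m ih =>
        rw [step m]
        have e : (Chebyshev.C ℚ ((m + 1 : ℕ) : ℤ)) = Chebyshev.C ℚ ((m : ℤ) + 1) := by push_cast; rfl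
        rw [e]
        rcases ih with ⟨h1, h2⟩ | ⟨h1, h2⟩ | ⟨h1, h2⟩ | ⟨h1, h2⟩ | ⟨h1, h2⟩ | ⟨h1, h2⟩ <;>
          rw [h1, h2] <;> norm_num
    rcases h with ⟨h, -⟩ | ⟨h, -⟩ | ⟨h, -⟩ | ⟨h, -⟩ | ⟨h, -⟩ | ⟨h, -⟩ <;> simp [h]
  · have h : ((Chebyshev.C ℚ n).eval (-1) = 2 ∧ (Chebyshev.C ℚ ((n : ℤ) + 1)).eval (-1) = -1) ∨
        ((Chebyshev.C ℚ n).eval (-1) = -1 ∧ (Chebyshev.C ℚ ((n : ℤ) + 1)).eval (-1) = -1) ∨
        ((Chebyshev.C ℚ n).eval (-1) = -1 ∧ (Chebyshev.C ℚ ((n : ℤ) + 1)).eval (-1 : ℚ) = 2) := by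
      induction n with
      | zero => left; simp
      | succ m ih =>
        rw [step m]
        have e : (Chebyshev.C ℚ ((m + 1 : ℕ) : ℤ)) = Chebyshev.C ℚ ((m : ℤ) + 1) := by push_cast; rfl
        rw [e]
        rcases ih with ⟨h1, h2⟩ | ⟨h1, h2⟩ | ⟨h1, h2⟩ <;> rw [h1, h2] <;> norm_num
    rcases h with ⟨h, -⟩ | ⟨h, -⟩ | ⟨h, -⟩ <;> simp [h]
  · rw [Chebyshev.C_eval_two]
    simp
  · rw [(C_neg_sq n 2).1, Chebyshev.C_eval_two]
    rcases neg_one_pow_eq_or ℚ n with h | h <;> rw [h] <;> norm_num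

/-- the orbits of `0, ±1, ±2` are finite -/
theorem orbit_small (d : ℕ) (s : ℤ) (hs : s = 1 ∨ s = -1) (x : ℚ)
    (hx : x = 0 ∨ x = 1 ∨ x = -1 ∨ x = 2 ∨ x = -2) (n : ℕ) :
    (fun y => (Polynomial.C (s : ℚ) * Chebyshev.C ℚ d).eval y)^[n] x ∈ ({0, 1, -1, 2, -2} : Set ℚ) := by
  induction n with
  | zero => simpa using hx
  | succ n ih =>
    rw [Function.iterate_succ_apply', eval_mul, eval_C]
    generalize (fun y => (Polynomial.C (s : ℚ) * Chebyshev.C ℚ d).eval y)^[n] x = z at ih ⊢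
    have h1 := C_small z (by simpa using ih) d
    rcases hs with rfl | rfl <;> rcases h1 with h | h | h | h | h <;> rw [h] <;> simp

theorem conj_deriv (m t : ℚ) (hm : m ≠ 0) (g : ℚ[X]) (x : ℚ) :
    (derivative (conj m t g)).eval (m * x + t) = (derivative g).eval x := by
  have e1 : derivative (conj m t g) =
      (derivative g).comp (Polynomial.C m⁻¹ * (X - Polynomial.C t)) := by
    unfold conj
    rw [derivative_add, derivative_C, add_zero, derivative_C_mul, derivative_comp, derivative_C_mul,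
      derivative_sub, derivative_X, derivative_C, sub_zero, mul_one, ← mul_assoc, ← C_mul,
      mul_inv_cancel₀ hm, C_1, one_mul]
  rw [e1, eval_comp]
  congr 1
  simp only [eval_mul, eval_C, eval_sub, eval_X]
  rw [add_sub_cancel_right, inv_mul_cancel_left₀ hm]

/-- a finite set satisfies the bound -/
theorem bound_of_finite (A : Set ℕ) (hA : A.Finite) (L : ℕ) :
    ∃ C : ℝ, ∀ x : ℕ, 2 ≤ x → ((A ∩ Set.Icc 1 x).ncard : ℝ) ≤ C * (√x * (Real.log x) ^ L) := by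
  refine ⟨A.ncard * 2 ^ L, fun x hx => ?_⟩
  have hxR : (2 : ℝ) ≤ x := by exact_mod_cast hx
  have hl2 : (1 / 2 : ℝ) < Real.log 2 := by
    have := Real.log_two_gt_d9
    linarith
  have hlx : (1 / 2 : ℝ) < Real.log x := hl2.trans_le (Real.log_le_log (by norm_num) hxR)
  have hs1 : (1 : ℝ) ≤ √x := by
    rw [show (1 : ℝ) = √1 by simp]
    exact Real.sqrt_le_sqrt (by linarith)
  have h6 : (1 : ℝ) ≤ 2 ^ L * (√x * Real.log x ^ L) := by
    have e1 : (1 : ℝ) ≤ (2 * Real.log x) ^ L := one_le_pow₀ (by linarith)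
    calc (1 : ℝ) = 1 * 1 := by ring
      _ ≤ √x * (2 * Real.log x) ^ L := mul_le_mul hs1 e1 (by norm_num) (by positivity)
      _ = _ := by rw [mul_pow]; ring
  have h7 : ((A ∩ Set.Icc 1 x).ncard : ℝ) ≤ (A.ncard : ℝ) := by
    exact_mod_cast Set.ncard_le_ncard Set.inter_subset_left hA
  calc ((A ∩ Set.Icc 1 x).ncard : ℝ) ≤ (A.ncard : ℝ) * 1 := by rw [mul_one]; exact h7
    _ ≤ (A.ncard : ℝ) * (2 ^ L * (√x * Real.log x ^ L)) :=
        mul_le_mul_of_nonneg_left h6 (Nat.cast_nonneg _)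
    _ = _ := by ring

/-- Chebyshev polynomials, all orbits without critical points -/
theorem cheb_all (d : ℕ) (hd : 2 ≤ d) (s : ℤ) (hs : s = 1 ∨ s = -1) (m t : ℚ) (hm : m ≠ 0) (α : ℚ)
    (hα : ∀ n : ℕ, (derivative (conj m t (Polynomial.C (s : ℚ) * Chebyshev.C ℚ d))).eval
      ((fun x => (conj m t (Polynomial.C (s : ℚ) * Chebyshev.C ℚ d)).eval x)^[n] α) ≠ 0) :
    ∃ C : ℝ, ∀ x : ℕ, 2 ≤ x →
      ((S (conj m t (Polynomial.C (s : ℚ) * Chebyshev.C ℚ d)) α ∩ Set.Icc 1 x).ncard : ℝ) ≤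
        C * (√x * (Real.log x) ^ d.primeFactors.card) := by
  obtain ⟨a, rfl⟩ : ∃ a, m * a + t = α := ⟨(α - t) / m, by field_simp; ring⟩
  by_cases ha : a = 0 ∨ a = 1 ∨ a = -1 ∨ a = 2 ∨ a = -2
  · apply bound_of_finite
    apply S_finite _ _ _ hα
    refine ((Set.toFinite ({0, 1, -1, 2, -2} : Set ℚ)).image fun y => m * y + t).subset ?_
    rintro _ ⟨n, rfl⟩
    refine ⟨_, orbit_small d s hs a ha n, ?_⟩
    exact (conj_iter m t hm _ a n).symm
  · push Not at ha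
    exact cheb d hd s hs m t hm a ha.1 ha.2.1 ha.2.2.1 ha.2.2.2.1 ha.2.2.2.2

/-- monomials: `S` is finite -/
theorem power (d : ℕ) (hd : 2 ≤ d) (b : ℚ) (hb : b ≠ 0) (m t : ℚ) (hm : m ≠ 0) (α : ℚ)
    (hα : ∀ n : ℕ, (derivative (conj m t (Polynomial.C b * X ^ d))).eval
      ((fun x => (conj m t (Polynomial.C b * X ^ d)).eval x)^[n] α) ≠ 0) :
    (S (conj m t (Polynomial.C b * X ^ d)) α).Finite := by
  classical
  obtain ⟨a, rfl⟩ : ∃ a, m * a + t = α := ⟨(α - t) / m, by field_simp; ring⟩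
  have ha : a ≠ 0 := by
    rintro rfl
    apply hα 0
    have h1 := conj_deriv m t hm (Polynomial.C b * X ^ d) 0
    rw [Function.iterate_zero, id, h1, derivative_C_mul, derivative_X_pow]
    have : d - 1 ≠ 0 := by omega
    simp [this]
  set W : ℤ := m.num * t.den * a.den * a.num * b.num * b.den * d with hW
  have hW0 : W ≠ 0 := by
    have e1 : m.num ≠ 0 := Rat.num_ne_zero.2 hm
    have e2 : (t.den : ℤ) ≠ 0 := by exact_mod_cast t.den_pos.ne'
    have e3 : (a.den : ℤ) ≠ 0 := by exact_mod_cast a.den_pos.ne'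
    have e4 : a.num ≠ 0 := Rat.num_ne_zero.2 ha
    have e5 : b.num ≠ 0 := Rat.num_ne_zero.2 hb
    have e6 : (b.den : ℤ) ≠ 0 := by exact_mod_cast b.den_pos.ne'
    have e7 : (d : ℤ) ≠ 0 := by exact_mod_cast (by omega : d ≠ 0)
    rw [hW]
    exact mul_ne_zero (mul_ne_zero (mul_ne_zero (mul_ne_zero (mul_ne_zero (mul_ne_zero e1 e2) e3) e4) e5) e6) e7
  refine (W.natAbs.primeFactors.finite_toSet).subset fun p hp => ?_
  rw [Finset.mem_coe, Nat.mem_primeFactors]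
  refine ⟨hp.1, ?_, Int.natAbs_ne_zero.2 hW0⟩
  by_contra hdv
  have hdv' : ¬ (p : ℤ) ∣ W := fun h => hdv (Int.natCast_dvd.1 h)
  have hpp : p.Prime := hp.1
  have n1 : ¬ (p : ℤ) ∣ m.num := fun h => hdv' (by
    rw [hW]; exact ((((((h.mul_right _).mul_right _).mul_right _).mul_right _).mul_right _).mul_right _))
  have n2 : ¬ (p : ℤ) ∣ t.den := fun h => hdv' (by
    rw [hW]; exact ((((((h.mul_left _).mul_right _).mul_right _).mul_right _).mul_right _).mul_right _))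
  have n3 : ¬ (p : ℤ) ∣ a.den := fun h => hdv' (by
    rw [hW]; exact (((((h.mul_left _).mul_right _).mul_right _).mul_right _).mul_right _))
  have n4 : ¬ (p : ℤ) ∣ a.num := fun h => hdv' (by
    rw [hW]; exact ((((h.mul_left _).mul_right _).mul_right _).mul_right _))
  have n5 : ¬ (p : ℤ) ∣ b.num := fun h => hdv' (by
    rw [hW]; exact (((h.mul_left _).mul_right _).mul_right _))
  have n6 : ¬ (p : ℤ) ∣ b.den := fun h => hdv' (by
    rw [hW]; exact ((h.mul_left _).mul_right _))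
  have hg : ∀ i, ¬ p ∣ ((Polynomial.C b * X ^ d : ℚ[X]).coeff i).den := by
    intro i h
    rw [coeff_C_mul_X_pow] at h
    split_ifs at h
    · exact n6 (by exact_mod_cast h)
    · rw [Rat.den_zero] at h
      exact hpp.one_lt.ne' (Nat.dvd_one.1 h)
  have hS := S_conj m t hm _ a p hp n1 (fun h => n2 (by exact_mod_cast h))
    (fun h => n3 (by exact_mod_cast h)) hg
  obtain ⟨-, -, -, n, c, hc, V, hpV, hcV, hdiff⟩ := hS
  have hc0 : c = 0 := by
    rw [derivative_C_mul, derivative_X_pow, map_mul, aeval_C, map_mul, map_pow, aeval_X] at hc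
    rcases mul_eq_zero.1 hc with h | h
    · exact absurd ((map_eq_zero (algebraMap ℚ (AlgebraicClosure ℚ))).1 h) hb
    · rcases mul_eq_zero.1 h with h' | h'
      · exfalso
        have : ((d : ℕ) : AlgebraicClosure ℚ) = 0 := by simpa using h'
        have h9 : d = 0 := by exact_mod_cast this
        omega
      · exact pow_eq_zero_iff (by omega) |>.1 h'
  rw [hc0, sub_zero] at hdiff
  have hval : ∀ r : ℚ, ¬ (p : ℤ) ∣ r.num → ¬ (p : ℤ) ∣ r.den → V.valuation (algebraMap ℚ Kb r) = 1 := by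
    intro r h1 h2
    have hu : ∀ z : ℤ, ¬ (p : ℤ) ∣ z → V.valuation ((z : ℤ) : Kb) = 1 := fun z hz =>
      unit_of_not_dvd V p hpV _ ((Int.prime_iff_natAbs_prime.2 (by simpa using hpp)).coprime_iff_not_dvd.2 hz)
    have h3 : ((r.den : ℤ) : ℚ) * r = ((r.num : ℤ) : ℚ) := by
      have := Rat.mul_den_eq_num r
      push_cast
      linarith
    have h4 := congrArg (algebraMap ℚ Kb) h3
    rw [map_mul, map_intCast, map_intCast] at h4
    have h5 := congrArg V.valuation h4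
    rw [map_mul, hu _ h1, hu _ h2, one_mul] at h5
    exact h5
  have hit : ∀ k : ℕ, V.valuation (algebraMap ℚ Kb
      ((fun x => (Polynomial.C b * X ^ d : ℚ[X]).eval x)^[k] a)) = 1 := by
    intro k
    induction k with
    | zero => exact hval a n4 n3
    | succ k ih =>
      rw [Function.iterate_succ_apply', eval_mul, eval_C, eval_pow, eval_X, map_mul, map_mul, map_pow,
        map_pow, ih, one_pow, mul_one]
      exact hval b n5 n6
  have h8 := (ValuationSubring.mem_nonunits_iff V).1 hdiff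
  exact h8.ne (hit n)

end Pool.Agent.TH191.CP
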